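import Mathlib
import Pool.Agent.Run7.h765.EO

set_option autoImplicit false
set_option linter.unusedSectionVars false

/-!
Powers of the coefficient as a scalar product.
-/

namespace Run7.h765.Mom

open Finset

variable {V : Type*} [Fintype V] [DecidableEq V]

/-- The lift `{0,1} → ZMod 3`. -/
def io (a : ZMod 2) : ZMod 3 := (a.val : ZMod 3)

/-- The signed number of choices with given differences. -/
def av (σ : Equiv.Perm V) (d : V → ZMod 3) : ℝ :=
  ∑ b : V → ZMod 2, if ∀ v, d v = io (b v) - io (b (σ.symm v)) then ∏ v, (sg (b v) : ℝ) else 0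

lemma io_flip (a b : ZMod 2) : io (a + 1) - io (b + 1) = - (io a - io b) := by
  revert a b; decide

lemma bal_io (a b c d : ZMod 2) :
    ((a.val : ℤ) - (b.val : ℤ)) + ((c.val : ℤ) - (d.val : ℤ)) = 0 ↔
      io a - io b = - (io c - io d) := by
  revert a b c d; decide

lemma sg_flip (a : ZMod 2) : (sg (a + 1) : ℝ) = - (sg a : ℝ) := by
  have : sg (a + 1) = - sg a := by revert a; decide
  rw [this]; push_cast; ring

lemma cc_real (σ τ : Equiv.Perm V) :
    (cc σ τ : ℝ) = (-1) ^ (Fintype.card V) * ∑ d : V → ZMod 3, av σ d * av τ d := by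
  have h1 : ∑ d : V → ZMod 3, av σ d * av τ d =
      ∑ b : V → ZMod 2, ∑ b' : V → ZMod 2,
        if (∀ v, io (b v) - io (b (σ.symm v)) = io (b' v) - io (b' (τ.symm v))) then
          (∏ v, (sg (b v) : ℝ)) * (∏ v, (sg (b' v) : ℝ)) else 0 := by
    unfold av
    simp_rw [Finset.sum_mul_sum]
    rw [Finset.sum_comm]
    refine Finset.sum_congr rfl fun b _ => ?_
    rw [Finset.sum_comm]
    refine Finset.sum_congr rfl fun b' _ => ?_
    rw [Finset.sum_eq_single (fun v => io (b v) - io (b (σ.symm v)))]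
    · simp only [implies_true, if_true]
      split_ifs with h
      · rfl
      · rw [mul_zero]
    · intro d _ hd
      rw [if_neg, zero_mul]
      intro h
      exact hd (funext h)
    · intro h
      exact absurd (Finset.mem_univ _) h
  have h2 : ∑ d : V → ZMod 3, av σ d * av τ d =
      (-1) ^ (Fintype.card V) * ∑ b : V → ZMod 2, ∑ b' : V → ZMod 2,
        if (∀ v, io (b v) - io (b (σ.symm v)) = - (io (b' v) - io (b' (τ.symm v)))) then
          (∏ v, (sg (b v) : ℝ)) * (∏ v, (sg (b' v) : ℝ)) else 0 := by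
    rw [h1, Finset.mul_sum]
    refine Finset.sum_congr rfl fun b _ => ?_
    rw [← Equiv.sum_comp (Equiv.addRight (fun _ : V => (1 : ZMod 2))), Finset.mul_sum]
    refine Finset.sum_congr rfl fun b' _ => ?_
    have e1 : (∀ v, io (b v) - io (b (σ.symm v)) =
        io ((Equiv.addRight (fun _ : V => (1 : ZMod 2))) b' v) -
          io ((Equiv.addRight (fun _ : V => (1 : ZMod 2))) b' (τ.symm v))) ↔
        (∀ v, io (b v) - io (b (σ.symm v)) = - (io (b' v) - io (b' (τ.symm v)))) := by
      refine forall_congr' fun v => ?_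
      simp only [Equiv.coe_addRight, Pi.add_apply]
      rw [io_flip]
    have e2 : (∏ v, (sg ((Equiv.addRight (fun _ : V => (1 : ZMod 2))) b' v) : ℝ)) =
        (-1) ^ (Fintype.card V) * ∏ v, (sg (b' v) : ℝ) := by
      simp only [Equiv.coe_addRight, Pi.add_apply]
      simp_rw [sg_flip]
      rw [Finset.prod_neg, Finset.card_univ]
    by_cases h : (∀ v, io (b v) - io (b (σ.symm v)) = - (io (b' v) - io (b' (τ.symm v))))
    · rw [if_pos h, if_pos (e1.mpr h), e2]; ring
    · rw [if_neg h, if_neg (fun h' => h (e1.mp h')), mul_zero]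
  have h3 : (cc σ τ : ℝ) = ∑ b : V → ZMod 2, ∑ b' : V → ZMod 2,
        if (∀ v, io (b v) - io (b (σ.symm v)) = - (io (b' v) - io (b' (τ.symm v)))) then
          (∏ v, (sg (b v) : ℝ)) * (∏ v, (sg (b' v) : ℝ)) else 0 := by
    rw [cc_eq]
    push_cast
    refine Finset.sum_congr rfl fun b _ => Finset.sum_congr rfl fun b' _ => ?_
    have e : Bal σ τ b b' ↔
        (∀ v, io (b v) - io (b (σ.symm v)) = - (io (b' v) - io (b' (τ.symm v)))) := by
      unfold Bal dl
      exact forall_congr' fun v => bal_io _ _ _ _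
    by_cases h : Bal σ τ b b'
    · rw [if_pos h, if_pos (e.mp h)]
    · rw [if_neg h, if_neg (fun h' => h (e.mpr h'))]
  rw [h3, h2, ← mul_assoc, ← mul_pow]
  norm_num

/-- The joint signed number for `r` replicas. -/
def AA {r : ℕ} (σ : Equiv.Perm V) (s : V → (Fin r → ZMod 3)) : ℝ := ∏ j, av σ (fun v => s v j)

lemma cc_pow {r : ℕ} (hr : Even r) (σ τ : Equiv.Perm V) :
    (cc σ τ : ℝ) ^ r = ∑ s : V → (Fin r → ZMod 3), AA σ s * AA τ s := by
  rw [cc_real, mul_pow, ← pow_mul, mul_comm (Fintype.card V) r, pow_mul, hr.neg_one_pow, one_pow,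
    one_mul, Fintype.sum_pow]
  rw [← Equiv.sum_comp (Equiv.piComm (fun (_ : Fin r) (_ : V) => ZMod 3)).symm]
  refine Finset.sum_congr rfl fun s _ => ?_
  unfold AA
  rw [← Finset.prod_mul_distrib]
  rfl

lemma av_conj (σ π : Equiv.Perm V) (d : V → ZMod 3) :
    av (π * σ * π⁻¹) d = av σ (fun v => d (π v)) := by
  unfold av
  rw [← Equiv.sum_comp (Equiv.arrowCongr π (Equiv.refl (ZMod 2)))]
  refine Finset.sum_congr rfl fun b _ => ?_
  have e1 : (∀ v, d v = io ((Equiv.arrowCongr π (Equiv.refl (ZMod 2))) b v) -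
      io ((Equiv.arrowCongr π (Equiv.refl (ZMod 2))) b ((π * σ * π⁻¹).symm v))) ↔
      (∀ v, d (π v) = io (b v) - io (b (σ.symm v))) := by
    constructor
    · intro h v
      have := h (π v)
      simpa [Equiv.arrowCongr, Equiv.Perm.mul_def, Equiv.Perm.inv_def] using this
    · intro h v
      have := h (π.symm v)
      simpa [Equiv.arrowCongr, Equiv.Perm.mul_def, Equiv.Perm.inv_def] using this
  have e2 : (∏ v, (sg ((Equiv.arrowCongr π (Equiv.refl (ZMod 2))) b v) : ℝ)) =
      ∏ v, (sg (b v) : ℝ) := by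
    rw [← Equiv.prod_comp π]
    refine Finset.prod_congr rfl fun v _ => ?_
    simp [Equiv.arrowCongr]
  by_cases h : (∀ v, d (π v) = io (b v) - io (b (σ.symm v)))
  · rw [if_pos h, if_pos (e1.mpr h), e2]
  · rw [if_neg h, if_neg (fun h' => h (e1.mp h'))]

lemma AA_conj {r : ℕ} (σ π : Equiv.Perm V) (s : V → (Fin r → ZMod 3)) :
    AA (π * σ * π⁻¹) s = AA σ (fun v => s (π v)) := by
  unfold AA
  refine Finset.prod_congr rfl fun j _ => ?_
  rw [av_conj]

end Run7.h765.Mom
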