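import Mathlib

set_option autoImplicit false
set_option linter.unusedSectionVars false

/-!
Types of words and averages over permutations of positions.
-/

namespace Run7.h765.Mom

open Finset Nat

variable {V S : Type*} [Fintype V] [DecidableEq V] [Fintype S] [DecidableEq S]

/-- The type of a word. -/
def cnt (s : V → S) : S → ℕ := fun a => Fintype.card {v // s v = a}

/-- The product of the factorials. -/
def wt (κ : S → ℕ) : ℕ := ∏ a, (κ a)!

lemma cnt_comp (s : V → S) (π : Equiv.Perm V) : cnt (s ∘ π) = cnt s := by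
  funext a
  unfold cnt
  exact Fintype.card_congr (Equiv.subtypeEquiv π (fun v => Iff.rfl))

lemma exists_perm (s s' : V → S) (h : cnt s' = cnt s) : ∃ π : Equiv.Perm V, s ∘ π = s' := by
  have e : ∀ c, {v // s' v = c} ≃ {v // s v = c} := fun c =>
    Fintype.equivOfCardEq (congrFun h c)
  refine ⟨Equiv.ofFiberEquiv e, ?_⟩
  funext v
  exact Equiv.ofFiberEquiv_map e v

lemma card_comp (s s' : V → S) :
    (univ.filter (fun π : Equiv.Perm V => s ∘ π = s')).card =
      if cnt s' = cnt s then wt (cnt s) else 0 := by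
  split_ifs with h
  · obtain ⟨π0, h0⟩ := exists_perm s s' h
    have h1 := DomMulAct.stabilizer_card s
    rw [Fintype.card_subtype] at h1
    unfold wt cnt
    rw [← h1]
    symm
    refine Finset.card_bij (fun g _ => g * π0) ?_ ?_ ?_
    · intro g hg
      simp only [mem_filter, mem_univ, true_and] at hg ⊢
      rw [Equiv.Perm.coe_mul, ← Function.comp_assoc, hg, h0]
    · intro a _ b _ hab
      exact mul_right_cancel hab
    · intro π hπ
      refine ⟨π * π0⁻¹, ?_, by group⟩
      simp only [mem_filter, mem_univ, true_and] at hπ ⊢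
      rw [Equiv.Perm.coe_mul, ← Function.comp_assoc, hπ, ← h0]
      funext v
      simp
  · rw [Finset.card_eq_zero, Finset.filter_eq_empty_iff]
    intro π _ hπ
    apply h
    rw [← hπ, cnt_comp]

/-- All types. -/
def KT (V S : Type*) [Fintype V] [DecidableEq V] [Fintype S] [DecidableEq S] : Finset (S → ℕ) :=
  (univ : Finset (V → S)).image cnt

/-- The words of a given type. -/
def Wd (V : Type*) {S : Type*} [Fintype V] [DecidableEq V] [Fintype S] [DecidableEq S]
    (κ : S → ℕ) : Finset (V → S) :=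
  (univ : Finset (V → S)).filter (fun s => cnt s = κ)

lemma mem_KT (s : V → S) : cnt s ∈ KT V S := mem_image_of_mem _ (mem_univ _)

/-- The sum of `A` over the words of a given type. -/
noncomputable def FF (A : (V → S) → ℝ) (κ : S → ℕ) : ℝ := ∑ s ∈ Wd V κ, A s

lemma sum_types {M : Type*} [AddCommMonoid M] (g : (V → S) → M) :
    ∑ s, g s = ∑ κ ∈ KT V S, ∑ s ∈ Wd V κ, g s := by
  unfold KT Wd
  exact (Finset.sum_fiberwise_of_maps_to (fun s _ => mem_image_of_mem _ (mem_univ s)) g).symm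

theorem avg_main (A : (V → S) → ℝ) :
    ∑ π : Equiv.Perm V, ∑ s : V → S, A s * A (s ∘ π) =
      ∑ κ ∈ KT V S, (wt κ : ℝ) * (FF A κ) ^ 2 := by
  rw [Finset.sum_comm]
  have h1 : ∀ s : V → S, ∑ π : Equiv.Perm V, A s * A (s ∘ π) =
      (wt (cnt s) : ℝ) * (A s * FF A (cnt s)) := by
    intro s
    have h2 : ∑ π : Equiv.Perm V, A (s ∘ π) =
        ∑ s' : V → S, ((univ.filter (fun π : Equiv.Perm V => s ∘ π = s')).card : ℝ) * A s' := by
      rw [← Finset.sum_fiberwise_of_maps_to (g := fun π : Equiv.Perm V => s ∘ π)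
        (t := (univ : Finset (V → S))) (fun _ _ => mem_univ _)]
      refine Finset.sum_congr rfl fun s' _ => ?_
      rw [Finset.sum_congr rfl (g := fun _ => A s')]
      · rw [Finset.sum_const, nsmul_eq_mul]
      · intro π hπ
        rw [(mem_filter.mp hπ).2]
    rw [← Finset.mul_sum, h2]
    unfold FF Wd
    rw [Finset.mul_sum, Finset.mul_sum, Finset.mul_sum, Finset.sum_filter]
    refine Finset.sum_congr rfl fun s' _ => ?_
    rw [card_comp]
    split_ifs
    · ring
    · simp
  rw [Finset.sum_congr rfl (fun s _ => h1 s), sum_types]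
  refine Finset.sum_congr rfl fun κ _ => ?_
  have h3 : ∀ s ∈ Wd V κ, (wt (cnt s) : ℝ) * (A s * FF A (cnt s)) =
      A s * ((wt κ : ℝ) * FF A κ) := by
    intro s hs
    have : cnt s = κ := (mem_filter.mp hs).2
    rw [this]; ring
  rw [Finset.sum_congr rfl h3, ← Finset.sum_mul]
  change FF A κ * _ = _
  ring

lemma wt_pos (κ : S → ℕ) : 0 < wt κ := Finset.prod_pos fun _ _ => Nat.factorial_pos _

lemma card_Wd (κ : S → ℕ) (hκ : κ ∈ KT V S) : (Wd V κ).card * wt κ = (Fintype.card V)! := by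
  obtain ⟨s0, _, rfl⟩ := mem_image.mp hκ
  rw [← Fintype.card_perm (α := V), ← Finset.card_univ,
    Finset.card_eq_sum_card_fiberwise (f := fun π : Equiv.Perm V => s0 ∘ π)
      (t := (univ : Finset (V → S))) (fun _ _ => mem_univ _)]
  rw [Finset.sum_congr rfl (fun s' _ => card_comp s0 s')]
  rw [← Finset.sum_filter, Finset.sum_const, smul_eq_mul]
  rfl

lemma sum_cnt (s : V → S) : ∑ a, cnt s a = Fintype.card V := by
  unfold cnt
  rw [← Fintype.card_sigma]
  exact Fintype.card_congr (Equiv.sigmaFiberEquiv s)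

lemma prod_cnt {M : Type*} [CommMonoid M] (f : S → M) (s : V → S) :
    ∏ v, f (s v) = ∏ a, f a ^ cnt s a := by
  rw [← Fintype.prod_fiberwise s (fun v => f (s v))]
  refine Finset.prod_congr rfl fun a _ => ?_
  rw [Finset.prod_congr rfl (g := fun _ => f a)]
  · rw [Finset.prod_const, Finset.card_univ]; rfl
  · intro v _
    rw [v.2]

lemma pow_sum_eq {R : Type*} [CommSemiring R] (f : S → R) :
    (∑ a, f a) ^ (Fintype.card V) = ∑ κ ∈ KT V S, ((Wd V κ).card : R) * ∏ a, f a ^ κ a := by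
  have h : (∑ a, f a) ^ (Fintype.card V) = ∑ s : V → S, ∏ v, f (s v) := by
    rw [← Finset.card_univ, ← Finset.prod_const, Finset.prod_univ_sum, Fintype.piFinset_univ]
  rw [h, sum_types]
  refine Finset.sum_congr rfl fun κ _ => ?_
  rw [Finset.sum_congr rfl (g := fun _ => ∏ a, f a ^ κ a)]
  · rw [Finset.sum_const, nsmul_eq_mul]
  · intro s hs
    rw [prod_cnt, (mem_filter.mp hs).2]

lemma fact_le_aux (k j : ℕ) : (k + j)! ≤ k ! * (k + j) ^ j := by
  induction j with
  | zero => simp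
  | succ j ih =>
    rw [← add_assoc, Nat.factorial_succ]
    calc (k + j + 1) * (k + j)! ≤ (k + j + 1) * (k ! * (k + j) ^ j) := Nat.mul_le_mul_left _ ih
      _ ≤ (k + j + 1) * (k ! * (k + j + 1) ^ j) :=
          Nat.mul_le_mul_left _ (Nat.mul_le_mul_left _ (Nat.pow_le_pow_left (Nat.le_succ _) _))
      _ = _ := by rw [pow_succ]; ring

lemma fact_pow (m k : ℕ) : m ! * m ^ k ≤ k ! * m ^ m := by
  rcases le_total m k with h | h
  · have := Nat.factorial_mul_pow_sub_le_factorial h
    calc m ! * m ^ k = (m ! * m ^ (k - m)) * m ^ m := by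
          rw [mul_assoc, ← pow_add, Nat.sub_add_cancel h]
      _ ≤ _ := Nat.mul_le_mul_right _ this
  · have h2 : m ! ≤ k ! * m ^ (m - k) := by
      obtain ⟨j, rfl⟩ := Nat.exists_eq_add_of_le h
      rw [Nat.add_sub_cancel_left]
      exact fact_le_aux k j
    calc m ! * m ^ k ≤ (k ! * m ^ (m - k)) * m ^ k := Nat.mul_le_mul_right _ h2
      _ = _ := by rw [mul_assoc, ← pow_add, Nat.sub_add_cancel h]

lemma pow_max (κ κ' : S → ℕ) (h : κ ∈ KT V S) (h' : κ' ∈ KT V S) :
    (Wd V κ').card * ∏ a, κ a ^ κ' a ≤ (Wd V κ).card * ∏ a, κ a ^ κ a := by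
  have h1 := card_Wd κ h
  have h2 := card_Wd κ' h'
  have h3 : wt κ * ∏ a, κ a ^ κ' a ≤ wt κ' * ∏ a, κ a ^ κ a := by
    unfold wt
    rw [← Finset.prod_mul_distrib, ← Finset.prod_mul_distrib]
    exact Finset.prod_le_prod' fun a _ => fact_pow _ _
  have h4 : wt κ * wt κ' * ((Wd V κ').card * ∏ a, κ a ^ κ' a) ≤
      wt κ * wt κ' * ((Wd V κ).card * ∏ a, κ a ^ κ a) := by
    calc wt κ * wt κ' * ((Wd V κ').card * ∏ a, κ a ^ κ' a)
        = ((Wd V κ').card * wt κ') * (wt κ * ∏ a, κ a ^ κ' a) := by ring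
      _ ≤ ((Wd V κ').card * wt κ') * (wt κ' * ∏ a, κ a ^ κ a) := Nat.mul_le_mul_left _ h3
      _ = ((Wd V κ).card * wt κ) * (wt κ' * ∏ a, κ a ^ κ a) := by rw [h1, h2]
      _ = _ := by ring
  exact Nat.le_of_mul_le_mul_left h4 (Nat.mul_pos (wt_pos _) (wt_pos _))

/-- A type class is large with respect to its own product measure. -/
lemma type_large (κ : S → ℕ) (h : κ ∈ KT V S) :
    (Fintype.card V) ^ (Fintype.card V) ≤
      (KT V S).card * ((Wd V κ).card * ∏ a, κ a ^ κ a) := by
  obtain ⟨s0, _, hs0⟩ := mem_image.mp h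
  have h1 : ∑ a, κ a = Fintype.card V := by rw [← hs0, sum_cnt]
  have h2 := pow_sum_eq (V := V) (R := ℕ) κ
  rw [h1] at h2
  rw [h2]
  calc _ ≤ ∑ κ' ∈ KT V S, (Wd V κ).card * ∏ a, κ a ^ κ a := by
        refine Finset.sum_le_sum fun κ' hκ' => ?_
        simpa using pow_max κ κ' h hκ'
    _ = _ := by rw [Finset.sum_const, smul_eq_mul]

lemma pi_pow_pos (κ : S → ℕ) : 0 < ∏ a, κ a ^ κ a := by
  refine Finset.prod_pos fun a _ => ?_
  rcases Nat.eq_zero_or_pos (κ a) with h | h
  · rw [h]; norm_num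
  · exact Nat.pow_pos h

lemma le_card (κ : S → ℕ) (h : κ ∈ KT V S) (a : S) : κ a ≤ Fintype.card V := by
  obtain ⟨s0, _, rfl⟩ := mem_image.mp h
  exact Fintype.card_subtype_le _

lemma card_KT : (KT V S).card ≤ (Fintype.card V + 1) ^ (Fintype.card S) := by
  have h : KT V S ⊆ Fintype.piFinset (fun _ : S => Finset.range (Fintype.card V + 1)) := by
    intro κ hκ
    rw [Fintype.mem_piFinset]
    intro a
    rw [Finset.mem_range]
    exact Nat.lt_succ_of_le (le_card κ hκ a)
  calc _ ≤ _ := Finset.card_le_card h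
    _ = _ := by rw [Fintype.card_piFinset]; simp

end Run7.h765.Mom
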