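import Mathlib
import Pool.Agent.Run7.h765.Mom.M2

set_option autoImplicit false
set_option linter.unusedSectionVars false

/-!
Extraction of the type sums by roots of unity.
-/

namespace Run7.h765.Mom

open Finset

variable {V S : Type*} [Fintype V] [DecidableEq V] [Fintype S] [DecidableEq S]

/-- The generating polynomial of `A`. -/
noncomputable def gen (A : (V → S) → ℝ) (X : S → ℂ) : ℂ := ∑ s : V → S, (A s : ℂ) * ∏ v, X (s v)

lemma root_sum {N : ℕ} (hN : 0 < N) {ζ : ℂ} (hζ : IsPrimitiveRoot ζ N) (k : ℕ) (hk : ¬ N ∣ k) :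
    ∑ j : Fin N, (ζ ^ (j : ℕ)) ^ k = 0 := by
  have h1 : ζ ^ k ≠ 1 := fun h => hk (hζ.dvd_of_pow_eq_one k h)
  have h2 : (ζ ^ k) ^ N = 1 := by rw [← pow_mul, mul_comm, pow_mul, hζ.pow_eq_one, one_pow]
  rw [Fin.sum_univ_eq_sum_range (fun j => (ζ ^ j) ^ k) N]
  have h3 : ∀ j ∈ Finset.range N, (ζ ^ j) ^ k = (ζ ^ k) ^ j := by
    intro j _
    rw [← pow_mul, ← pow_mul, mul_comm]
  rw [Finset.sum_congr rfl h3]
  have h4 := mul_neg_geom_sum (ζ ^ k) N
  rw [h2, sub_self] at h4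
  rcases mul_eq_zero.mp h4 with h | h
  · exact absurd (sub_eq_zero.mp h).symm h1
  · exact h

lemma root_sum' {N : ℕ} {ζ : ℂ} (hζ : IsPrimitiveRoot ζ N) :
    ∑ j : Fin N, (ζ ^ (j : ℕ)) ^ N = N := by
  have h3 : ∀ j : Fin N, (ζ ^ (j : ℕ)) ^ N = 1 := by
    intro j
    rw [← pow_mul, mul_comm, pow_mul, hζ.pow_eq_one, one_pow]
  rw [Finset.sum_congr rfl (fun j _ => h3 j)]
  simp

/-- Extraction. -/
theorem extract (A : (V → S) → ℝ) (M : ℝ)
    (hM : ∀ X : S → ℂ, ‖gen A X‖ ^ 2 ≤ M * (∑ a, ‖X a‖ ^ 2) ^ (Fintype.card V))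
    (κ : S → ℕ) (hκ : κ ∈ KT V S) :
    (FF A κ) ^ 2 * ∏ a, (κ a : ℝ) ^ (κ a) ≤
      M * (Fintype.card V : ℝ) ^ (Fintype.card V) := by
  set n := Fintype.card V with hn
  set N := n + 1 with hN
  have hNpos : 0 < N := Nat.succ_pos _
  set ζ : ℂ := Complex.exp (2 * Real.pi * Complex.I / N) with hζdef
  have hζ : IsPrimitiveRoot ζ N := Complex.isPrimitiveRoot_exp N hNpos.ne'
  have hζn : ‖ζ‖ = 1 := hζ.norm'_eq_one hNpos.ne'
  let X : (S → Fin N) → S → ℂ := fun θ a => (Real.sqrt (κ a) : ℂ) * ζ ^ (θ a : ℕ)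
  let P : (S → Fin N) → ℂ := fun θ => ∏ a, (ζ ^ (θ a : ℕ)) ^ (N - κ a)
  have hXn : ∀ θ, ∑ a, ‖X θ a‖ ^ 2 = (n : ℝ) := by
    intro θ
    have : ∀ a, ‖X θ a‖ ^ 2 = (κ a : ℝ) := by
      intro a
      simp only [X, norm_mul, norm_pow, hζn, one_pow, mul_one, Complex.norm_real, Real.norm_eq_abs,
        sq_abs]
      exact Real.sq_sqrt (Nat.cast_nonneg _)
    rw [Finset.sum_congr rfl (fun a _ => this a)]
    obtain ⟨s0, _, hs0⟩ := mem_image.mp hκ
    rw [← Nat.cast_sum, ← hs0, sum_cnt]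
  have hPn : ∀ θ, ‖P θ‖ = 1 := by
    intro θ
    simp only [P, norm_prod, norm_pow, hζn, one_pow, Finset.prod_const_one]
  -- the Fourier sum
  have key : ∑ θ : S → Fin N, gen A (X θ) * P θ =
      (N : ℂ) ^ (Fintype.card S) * ((∏ a, (Real.sqrt (κ a)) ^ (κ a) : ℝ) : ℂ) * (FF A κ : ℂ) := by
    have h1 : ∀ θ : S → Fin N, gen A (X θ) * P θ =
        ∑ s : V → S, (A s : ℂ) * ∏ a, ((Real.sqrt (κ a) : ℂ) ^ (cnt s a) *
          (ζ ^ (θ a : ℕ)) ^ (cnt s a + (N - κ a))) := by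
      intro θ
      unfold gen
      rw [Finset.sum_mul]
      refine Finset.sum_congr rfl fun s _ => ?_
      rw [prod_cnt, mul_assoc, ← Finset.prod_mul_distrib]
      congr 1
      refine Finset.prod_congr rfl fun a _ => ?_
      simp only [X]
      rw [mul_pow, pow_add]; ring
    rw [Finset.sum_congr rfl (fun θ _ => h1 θ), Finset.sum_comm]
    have h2 : ∀ s : V → S, ∑ θ : S → Fin N, (A s : ℂ) * ∏ a, ((Real.sqrt (κ a) : ℂ) ^ (cnt s a) *
          (ζ ^ (θ a : ℕ)) ^ (cnt s a + (N - κ a))) =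
        if cnt s = κ then (A s : ℂ) *
          ((N : ℂ) ^ (Fintype.card S) * ((∏ a, (Real.sqrt (κ a)) ^ (κ a) : ℝ) : ℂ)) else 0 := by
      intro s
      rw [← Finset.mul_sum]
      have h3 : ∑ θ : S → Fin N, ∏ a, ((Real.sqrt (κ a) : ℂ) ^ (cnt s a) *
          (ζ ^ (θ a : ℕ)) ^ (cnt s a + (N - κ a))) =
          ∏ a, ∑ j : Fin N, ((Real.sqrt (κ a) : ℂ) ^ (cnt s a) *
          (ζ ^ (j : ℕ)) ^ (cnt s a + (N - κ a))) := by
        rw [Finset.prod_univ_sum, Fintype.piFinset_univ]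
      rw [h3]
      split_ifs with h
      · congr 1
        have h4 : ∀ a, ∑ j : Fin N, ((Real.sqrt (κ a) : ℂ) ^ (cnt s a) *
            (ζ ^ (j : ℕ)) ^ (cnt s a + (N - κ a))) = (N : ℂ) * (Real.sqrt (κ a) : ℂ) ^ (κ a) := by
          intro a
          have h5 : cnt s a + (N - κ a) = N := by
            rw [h]
            have := le_card κ hκ a
            omega
          rw [← Finset.mul_sum, h5, root_sum' hζ, h, mul_comm]
        rw [Finset.prod_congr rfl (fun a _ => h4 a), Finset.prod_mul_distrib, Finset.prod_const,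
          Finset.card_univ]
        push_cast
        rfl
      · obtain ⟨a, ha⟩ : ∃ a, cnt s a ≠ κ a := by
          by_contra hcon
          push Not at hcon
          exact h (funext hcon)
        rw [Finset.prod_eq_zero (Finset.mem_univ a), mul_zero]
        rw [← Finset.mul_sum, root_sum hNpos hζ, mul_zero]
        intro hd
        have e1 := le_card κ hκ a
        have e2 := le_card (cnt s) (mem_KT s) a
        obtain ⟨q, hq⟩ := hd
        have hq1 : 1 ≤ q := by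
          rcases Nat.eq_zero_or_pos q with h0 | h0
          · rw [h0, mul_zero] at hq; omega
          · exact h0
        have hq2 : q < 2 := by
          by_contra hc
          push Not at hc
          have : N * 2 ≤ N * q := Nat.mul_le_mul_left _ hc
          omega
        have : q = 1 := by omega
        rw [this] at hq
        omega
    rw [Finset.sum_congr rfl (fun s _ => h2 s), ← Finset.sum_filter, ← Finset.sum_mul]
    unfold FF Wd
    push_cast
    ring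
  have hb : ∀ θ, ‖gen A (X θ) * P θ‖ ≤ Real.sqrt (M * (n : ℝ) ^ n) := by
    intro θ
    rw [norm_mul, hPn, mul_one]
    apply Real.le_sqrt_of_sq_le
    have := hM (X θ)
    rw [hXn] at this
    exact this
  have hnorm : (N : ℝ) ^ (Fintype.card S) * ((∏ a, (Real.sqrt (κ a)) ^ (κ a)) * |FF A κ|) ≤
      (N : ℝ) ^ (Fintype.card S) * Real.sqrt (M * (n : ℝ) ^ n) := by
    have h1 : ‖∑ θ : S → Fin N, gen A (X θ) * P θ‖ ≤
        (N : ℝ) ^ (Fintype.card S) * Real.sqrt (M * (n : ℝ) ^ n) := by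
      refine (norm_sum_le _ _).trans ?_
      refine (Finset.sum_le_sum fun θ _ => hb θ).trans ?_
      rw [Finset.sum_const, Finset.card_univ, Fintype.card_fun, Fintype.card_fin, nsmul_eq_mul]
      push_cast
      exact le_refl _
    rw [key, norm_mul, norm_mul, norm_pow, Complex.norm_natCast, Complex.norm_real,
      Complex.norm_real, Real.norm_eq_abs, Real.norm_eq_abs,
      abs_of_nonneg (Finset.prod_nonneg fun a _ => pow_nonneg (Real.sqrt_nonneg _) _), mul_assoc]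
      at h1
    exact h1
  have hNR : (0 : ℝ) < (N : ℝ) ^ (Fintype.card S) := pow_pos (by exact_mod_cast hNpos) _
  have h2 := le_of_mul_le_mul_left hnorm hNR
  have hMn : 0 ≤ M * (n : ℝ) ^ n := by
    have := hM (X (fun _ => ⟨0, hNpos⟩))
    rw [hXn] at this
    exact (sq_nonneg _).trans this
  have h3 : ((∏ a, (Real.sqrt (κ a)) ^ (κ a)) * |FF A κ|) ^ 2 ≤ M * (n : ℝ) ^ n := by
    calc _ ≤ (Real.sqrt (M * (n : ℝ) ^ n)) ^ 2 := by
          apply pow_le_pow_left₀ _ h2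
          exact mul_nonneg (Finset.prod_nonneg fun a _ => pow_nonneg (Real.sqrt_nonneg _) _)
            (abs_nonneg _)
      _ = _ := Real.sq_sqrt hMn
  have h4 : ((∏ a, (Real.sqrt (κ a)) ^ (κ a)) * |FF A κ|) ^ 2 =
      (FF A κ) ^ 2 * ∏ a, (κ a : ℝ) ^ (κ a) := by
    rw [mul_pow, sq_abs, ← Finset.prod_pow, mul_comm]
    congr 1
    refine Finset.prod_congr rfl fun a _ => ?_
    rw [← pow_mul, mul_comm, pow_mul, Real.sq_sqrt (Nat.cast_nonneg _)]
  rw [h4] at h3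
  exact h3

/-- Upper bound for the average. -/
theorem avg_le (A : (V → S) → ℝ) (M : ℝ)
    (hM : ∀ X : S → ℂ, ‖gen A X‖ ^ 2 ≤ M * (∑ a, ‖X a‖ ^ 2) ^ (Fintype.card V)) :
    ∑ π : Equiv.Perm V, ∑ s : V → S, A s * A (s ∘ π) ≤
      ((KT V S).card : ℝ) ^ 2 * M * (Nat.factorial (Fintype.card V) : ℝ) := by
  rw [avg_main]
  have h1 : ∀ κ ∈ KT V S, (wt κ : ℝ) * (FF A κ) ^ 2 ≤
      ((KT V S).card : ℝ) * M * (Nat.factorial (Fintype.card V) : ℝ) := by
    intro κ hκ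
    have e1 := extract A M hM κ hκ
    have e2 : ((Fintype.card V : ℝ) ^ (Fintype.card V)) ≤
        ((KT V S).card : ℝ) * (((Wd V κ).card : ℝ) * ∏ a, (κ a : ℝ) ^ (κ a)) := by
      exact_mod_cast type_large (V := V) κ hκ
    have e3 : ((Wd V κ).card : ℝ) * (wt κ : ℝ) = (Nat.factorial (Fintype.card V) : ℝ) := by
      exact_mod_cast card_Wd κ hκ
    have e4 : (0 : ℝ) < ∏ a, (κ a : ℝ) ^ (κ a) := by
      exact_mod_cast pi_pow_pos κ
    have hM0 : 0 ≤ M * (Fintype.card V : ℝ) ^ (Fintype.card V) := by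
      refine le_trans ?_ e1
      exact mul_nonneg (sq_nonneg _) e4.le
    have hM1 : 0 ≤ M := by
      rcases Nat.eq_zero_or_pos (Fintype.card V) with h | h
      · rw [h] at hM0; simpa using hM0
      · have : (0 : ℝ) < (Fintype.card V : ℝ) ^ (Fintype.card V) := by positivity
        exact nonneg_of_mul_nonneg_left hM0 this
    have e5 : (wt κ : ℝ) * (FF A κ) ^ 2 * ∏ a, (κ a : ℝ) ^ (κ a) ≤
        ((KT V S).card : ℝ) * M * (Nat.factorial (Fintype.card V) : ℝ) *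
          ∏ a, (κ a : ℝ) ^ (κ a) := by
      calc (wt κ : ℝ) * (FF A κ) ^ 2 * ∏ a, (κ a : ℝ) ^ (κ a)
          = (wt κ : ℝ) * ((FF A κ) ^ 2 * ∏ a, (κ a : ℝ) ^ (κ a)) := by ring
        _ ≤ (wt κ : ℝ) * (M * (Fintype.card V : ℝ) ^ (Fintype.card V)) :=
            mul_le_mul_of_nonneg_left e1 (Nat.cast_nonneg _)
        _ = (wt κ : ℝ) * M * ((Fintype.card V : ℝ) ^ (Fintype.card V)) := by ring
        _ ≤ (wt κ : ℝ) * M * (((KT V S).card : ℝ) *
              (((Wd V κ).card : ℝ) * ∏ a, (κ a : ℝ) ^ (κ a))) :=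
            mul_le_mul_of_nonneg_left e2 (mul_nonneg (Nat.cast_nonneg _) hM1)
        _ = ((KT V S).card : ℝ) * M * (((Wd V κ).card : ℝ) * (wt κ : ℝ)) *
              ∏ a, (κ a : ℝ) ^ (κ a) := by ring
        _ = _ := by rw [e3]
    exact le_of_mul_le_mul_right e5 e4
  calc _ ≤ ∑ κ ∈ KT V S, ((KT V S).card : ℝ) * M * (Nat.factorial (Fintype.card V) : ℝ) :=
        Finset.sum_le_sum h1
    _ = _ := by rw [Finset.sum_const, nsmul_eq_mul]; ring

/-- Lower bound for the average. -/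
theorem avg_ge (A : (V → S) → ℝ) (X : S → ℝ) :
    (∑ s : V → S, A s * ∏ v, X (s v)) ^ 2 * (Nat.factorial (Fintype.card V) : ℝ) ≤
      (∑ a, X a ^ 2) ^ (Fintype.card V) *
        ∑ π : Equiv.Perm V, ∑ s : V → S, A s * A (s ∘ π) := by
  rw [avg_main, sum_types, pow_sum_eq (V := V) (fun a => X a ^ 2)]
  have h1 : ∀ κ ∈ KT V S, ∑ s ∈ Wd V κ, A s * ∏ v, X (s v) = FF A κ * ∏ a, X a ^ κ a := by
    intro κ _
    unfold FF
    rw [Finset.sum_mul]
    refine Finset.sum_congr rfl fun s hs => ?_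
    rw [prod_cnt, (mem_filter.mp hs).2]
  rw [Finset.sum_congr rfl h1]
  have h2 : ∀ κ ∈ KT V S, ((Wd V κ).card : ℝ) * ∏ a, (X a ^ 2) ^ κ a =
      (Nat.factorial (Fintype.card V) : ℝ) * ((∏ a, X a ^ κ a) ^ 2 / (wt κ : ℝ)) := by
    intro κ hκ
    have e3 : ((Wd V κ).card : ℝ) * (wt κ : ℝ) = (Nat.factorial (Fintype.card V) : ℝ) := by
      exact_mod_cast card_Wd κ hκ
    have e4 : (wt κ : ℝ) ≠ 0 := by exact_mod_cast (wt_pos κ).ne'
    rw [← e3, ← Finset.prod_pow]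
    have : ∀ a, (X a ^ 2) ^ κ a = (X a ^ κ a) ^ 2 := fun a => by
      rw [← pow_mul, ← pow_mul, mul_comm]
    rw [Finset.prod_congr rfl (fun a _ => this a)]
    field_simp
  rw [Finset.sum_congr rfl h2, ← Finset.mul_sum]
  have h3 := Finset.sum_mul_sq_le_sq_mul_sq (KT V S)
    (fun κ => (∏ a, X a ^ κ a) / Real.sqrt (wt κ)) (fun κ => Real.sqrt (wt κ) * FF A κ)
  have h4 : ∑ κ ∈ KT V S, (∏ a, X a ^ κ a) / Real.sqrt (wt κ) * (Real.sqrt (wt κ) * FF A κ) =
      ∑ κ ∈ KT V S, FF A κ * ∏ a, X a ^ κ a := by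
    refine Finset.sum_congr rfl fun κ _ => ?_
    have : Real.sqrt (wt κ) ≠ 0 := (Real.sqrt_pos.mpr (by exact_mod_cast wt_pos κ)).ne'
    field_simp
  have h5 : ∑ κ ∈ KT V S, ((∏ a, X a ^ κ a) / Real.sqrt (wt κ)) ^ 2 =
      ∑ κ ∈ KT V S, ((∏ a, X a ^ κ a) ^ 2 / (wt κ : ℝ)) := by
    refine Finset.sum_congr rfl fun κ _ => ?_
    rw [div_pow, Real.sq_sqrt (Nat.cast_nonneg _)]
  have h6 : ∑ κ ∈ KT V S, (Real.sqrt (wt κ) * FF A κ) ^ 2 =
      ∑ κ ∈ KT V S, (wt κ : ℝ) * (FF A κ) ^ 2 := by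
    refine Finset.sum_congr rfl fun κ _ => ?_
    rw [mul_pow, Real.sq_sqrt (Nat.cast_nonneg _)]
  rw [h4, h5, h6] at h3
  have h7 : (0 : ℝ) ≤ (Nat.factorial (Fintype.card V) : ℝ) := Nat.cast_nonneg _
  calc _ ≤ _ := mul_le_mul_of_nonneg_right h3 h7
    _ = _ := by ring

end Run7.h765.Mom
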