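import Mathlib
import Pool.Agent.Run7.h765.Mom.M1
import Pool.Agent.Run7.h765.Mom.M4

set_option autoImplicit false
set_option linter.unusedSectionVars false

/-!
The generating polynomial is the trace of a power of a matrix.
-/

namespace Run7.h765.Mom

open Finset

section path

variable {R B : Type*} [CommRing R] [Fintype B] [DecidableEq B]

lemma path_sum (T : Matrix B B R) (m : ℕ) : ∀ i j : B, (T ^ m) i j =
    ∑ β : Fin (m + 1) → B, if β 0 = i ∧ β (Fin.last m) = j then
      ∏ k : Fin m, T (β k.castSucc) (β k.succ) else 0 := by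
  induction m with
  | zero =>
    intro i j
    rw [pow_zero, Matrix.one_apply]
    rw [← Equiv.sum_comp (Equiv.funUnique (Fin 1) B).symm]
    simp only [Finset.univ_eq_empty, Finset.prod_empty]
    have h : ∀ x : B, (if ((Equiv.funUnique (Fin 1) B).symm x) 0 = i ∧
        ((Equiv.funUnique (Fin 1) B).symm x) (Fin.last 0) = j then (1 : R) else 0) =
        if x = i then (if i = j then 1 else 0) else 0 := by
      intro x
      have e1 : ((Equiv.funUnique (Fin 1) B).symm x) 0 = x := rfl
      have e2 : ((Equiv.funUnique (Fin 1) B).symm x) (Fin.last 0) = x := rfl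
      rw [e1, e2]
      by_cases h1 : x = i
      · subst h1; simp
      · simp [h1]
    rw [Finset.sum_congr rfl (fun x _ => h x)]
    simp
  | succ m ih =>
    intro i j
    rw [pow_succ', Matrix.mul_apply]
    rw [← Equiv.sum_comp (Fin.consEquiv (fun _ : Fin (m + 2) => B)), Fintype.sum_prod_type]
    have hl : ∀ l : B, T i l * (T ^ m) l j =
        ∑ β : Fin (m + 1) → B, if β 0 = l then (if β (Fin.last m) = j then
          T i (β 0) * ∏ k : Fin m, T (β k.castSucc) (β k.succ) else 0) else 0 := by
      intro l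
      rw [ih, Finset.mul_sum]
      refine Finset.sum_congr rfl fun β _ => ?_
      by_cases h1 : β 0 = l
      · by_cases h2 : β (Fin.last m) = j
        · simp [h1, h2]
        · simp [h2]
      · simp [h1]
    rw [Finset.sum_congr rfl (fun l _ => hl l), Finset.sum_comm]
    have hr : ∀ x : B, ∑ β : Fin (m + 1) → B,
        (if (Fin.consEquiv (fun _ : Fin (m + 2) => B)) (x, β) 0 = i ∧
          (Fin.consEquiv (fun _ : Fin (m + 2) => B)) (x, β) (Fin.last (m + 1)) = j then
          ∏ k : Fin (m + 1), T ((Fin.consEquiv (fun _ : Fin (m + 2) => B)) (x, β) k.castSucc)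
            ((Fin.consEquiv (fun _ : Fin (m + 2) => B)) (x, β) k.succ) else 0) =
        if x = i then ∑ β : Fin (m + 1) → B, (if β (Fin.last m) = j then
          T i (β 0) * ∏ k : Fin m, T (β k.castSucc) (β k.succ) else 0) else 0 := by
      intro x
      have e0 : ∀ β : Fin (m + 1) → B,
          (Fin.consEquiv (fun _ : Fin (m + 2) => B)) (x, β) 0 = x := fun _ => rfl
      have e1 : ∀ β : Fin (m + 1) → B, (Fin.consEquiv (fun _ : Fin (m + 2) => B)) (x, β)
          (Fin.last (m + 1)) = β (Fin.last m) := fun β => by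
        rw [← Fin.succ_last]; rfl
      have e2 : ∀ (β : Fin (m + 1) → B) (k : Fin (m + 1)),
          (Fin.consEquiv (fun _ : Fin (m + 2) => B)) (x, β) k.succ = β k := fun _ _ => rfl
      have e3 : ∀ (β : Fin (m + 1) → B) (k : Fin m),
          (Fin.consEquiv (fun _ : Fin (m + 2) => B)) (x, β) k.succ.castSucc = β k.castSucc := by
        intro β k
        rw [← Fin.succ_castSucc]; rfl
      by_cases hx : x = i
      · rw [if_pos hx]
        refine Finset.sum_congr rfl fun β _ => ?_
        rw [e0, e1]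
        by_cases hj : β (Fin.last m) = j
        · rw [if_pos ⟨hx, hj⟩, if_pos hj, Fin.prod_univ_succ]
          subst hx
          refine congrArg₂ (· * ·) rfl (Finset.prod_congr rfl fun k _ => ?_)
          rw [e3]
          rfl
        · rw [if_neg (fun h => hj h.2), if_neg hj]
      · rw [if_neg hx]
        refine Finset.sum_eq_zero fun β _ => ?_
        rw [e0, if_neg (fun h => hx h.1)]
    rw [Finset.sum_congr rfl (fun x _ => hr x)]
    simp

lemma closed_sum (T : Matrix B B R) (m : ℕ) :
    ∑ β : Fin (m + 1) → B, ∏ v, T (β v) (β (finRotate (m + 1) v)) = (T ^ (m + 1)).trace := by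
  unfold Matrix.trace
  simp only [Matrix.diag_apply]
  have h1 : ∀ i, (T ^ (m + 1)) i i = ∑ β : Fin (m + 1) → B, ∑ j : B,
      if β 0 = i ∧ β (Fin.last m) = j then
      (∏ k : Fin m, T (β k.castSucc) (β k.succ)) * T j i else 0 := by
    intro i
    rw [pow_succ, Matrix.mul_apply, Finset.sum_comm]
    refine Finset.sum_congr rfl fun j _ => ?_
    rw [path_sum, Finset.sum_mul]
    refine Finset.sum_congr rfl fun β _ => ?_
    rw [ite_mul, zero_mul]
  rw [Finset.sum_congr rfl (fun i _ => h1 i), Finset.sum_comm]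
  refine Finset.sum_congr rfl fun β _ => ?_
  rw [Finset.sum_eq_single (β 0), Finset.sum_eq_single (β (Fin.last m))]
  · rw [if_pos ⟨rfl, rfl⟩, Fin.prod_univ_castSucc]
    congr 1
    · refine Finset.prod_congr rfl fun k _ => ?_
      rw [finRotate_apply, Fin.coeSucc_eq_succ]
    · rw [finRotate_apply, Fin.last_add_one]
  · intro j _ hj
    rw [if_neg (fun h => hj h.2.symm)]
  · intro h; exact absurd (Finset.mem_univ _) h
  · intro i _ hi
    refine Finset.sum_eq_zero fun j _ => ?_
    rw [if_neg (fun h => hi h.1.symm)]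
  · intro h; exact absurd (Finset.mem_univ _) h

end path

variable {r : ℕ}

/-- The embedding of the bond states. -/
def cb (β : Fin r → ZMod 2) : Fin r → ZMod 3 := fun j => io (β j)

/-- The sign of a bond state. -/
def sb (β : Fin r → ZMod 2) : ℤ := ∏ j, sg (β j)

/-- The transfer matrix. -/
noncomputable def TM (X : (Fin r → ZMod 3) → ℂ) : Matrix (Fin r → ZMod 2) (Fin r → ZMod 2) ℂ :=
  fun β β' => ((sb β : ℤ) : ℂ) * X (cb β - cb β')

section AAsum

variable {V : Type*} [Fintype V] [DecidableEq V]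

lemma AA_sum (σ : Equiv.Perm V) (s : V → (Fin r → ZMod 3)) :
    AA σ s = ∑ β : V → (Fin r → ZMod 2),
      if s = (fun v => cb (β v) - cb (β (σ.symm v))) then ∏ v, ((sb (β v) : ℤ) : ℝ) else 0 := by
  unfold AA av
  rw [Finset.prod_univ_sum, Fintype.piFinset_univ]
  rw [← Equiv.sum_comp (Equiv.piComm (fun (_ : V) (_ : Fin r) => ZMod 2))]
  refine Finset.sum_congr rfl fun β _ => ?_
  rw [Finset.prod_ite_zero]
  have e1 : (∀ j ∈ (univ : Finset (Fin r)), ∀ v, s v j =
      io ((Equiv.piComm (fun (_ : V) (_ : Fin r) => ZMod 2)) β j v) -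
      io ((Equiv.piComm (fun (_ : V) (_ : Fin r) => ZMod 2)) β j (σ.symm v))) ↔
      (s = (fun v => cb (β v) - cb (β (σ.symm v)))) := by
    constructor
    · intro h
      funext v j
      exact h j (Finset.mem_univ _) v
    · intro h j _ v
      rw [h]; rfl
  have e2 : (∏ j : Fin r, ∏ v : V,
      (sg ((Equiv.piComm (fun (_ : V) (_ : Fin r) => ZMod 2)) β j v) : ℝ)) =
      ∏ v, ((sb (β v) : ℤ) : ℝ) := by
    rw [Finset.prod_comm]
    refine Finset.prod_congr rfl fun v _ => ?_
    unfold sb
    push_cast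
    rfl
  by_cases h : (s = (fun v => cb (β v) - cb (β (σ.symm v))))
  · rw [if_pos h, if_pos (e1.mpr h), e2]
  · rw [if_neg h, if_neg (fun h' => h (e1.mp h'))]

lemma gen_AA (σ : Equiv.Perm V) (X : (Fin r → ZMod 3) → ℂ) :
    gen (AA σ) X = ∑ β : V → (Fin r → ZMod 2), ∏ v, TM X (β v) (β (σ.symm v)) := by
  unfold gen
  have h1 : ∀ s : V → (Fin r → ZMod 3), ((AA σ s : ℝ) : ℂ) * ∏ v, X (s v) =
      ∑ β : V → (Fin r → ZMod 2), if s = (fun v => cb (β v) - cb (β (σ.symm v))) then
        (∏ v, ((sb (β v) : ℤ) : ℂ)) * ∏ v, X (s v) else 0 := by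
    intro s
    rw [AA_sum]
    push_cast
    rw [Finset.sum_mul]
    refine Finset.sum_congr rfl fun β _ => ?_
    split_ifs
    · push_cast; rfl
    · push_cast; rw [zero_mul]
  rw [Finset.sum_congr rfl (fun s _ => h1 s), Finset.sum_comm]
  refine Finset.sum_congr rfl fun β _ => ?_
  rw [Finset.sum_ite_eq' univ (fun v => cb (β v) - cb (β (σ.symm v)))
    (fun s => (∏ v, ((sb (β v) : ℤ) : ℂ)) * ∏ v, X (s v)), if_pos (Finset.mem_univ _),
    ← Finset.prod_mul_distrib]
  rfl

end AAsum

/-- The generating polynomial as a trace. -/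
theorem gen_trace (m : ℕ) (X : (Fin r → ZMod 3) → ℂ) :
    gen (AA (r := r) (finRotate (m + 1))) X = ((TM X) ^ (m + 1)).trace := by
  rw [gen_AA]
  have h1 : ∀ β : Fin (m + 1) → (Fin r → ZMod 2),
      ∏ v, TM X (β v) (β ((finRotate (m + 1)).symm v)) =
        ∏ v, (TM X).transpose (β v) (β (finRotate (m + 1) v)) := by
    intro β
    rw [← Equiv.prod_comp (finRotate (m + 1))]
    refine Finset.prod_congr rfl fun v _ => ?_
    rw [Equiv.symm_apply_apply, Matrix.transpose_apply]
  rw [Finset.sum_congr rfl (fun β _ => h1 β), closed_sum, ← Matrix.transpose_pow,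
    Matrix.trace_transpose]

end Run7.h765.Mom
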