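import Mathlib
import Pool.Agent.Run7.h765.Mom.M3

set_option autoImplicit false
set_option linter.unusedSectionVars false

/-!
An inequality for sixteen nonnegative numbers indexed by the vertices of the 4-cube.
-/

namespace Run7.h765.Mom

open Finset

/-- Bond states for four replicas. -/
abbrev B4 := Fin 4 → ZMod 2

/-- Site states for four replicas. -/
abbrev S4 := Fin 4 → ZMod 3

/-- Parity. -/
def par (β : B4) : ZMod 2 := ∑ j, β j

/-- The antipode. -/
def an (β : B4) : B4 := fun j => β j + 1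

lemma mask_dec : ∀ u d : B4, (∀ j, d j = 0 ∨ d j = u j) → ∑ j, u j = 0 → ∑ j, d j = 0 →
    d = 0 ∨ d = u ∨ u = fun _ => 1 := by
  decide

lemma coord_dec : ∀ a b a' b' : ZMod 2, io a + io b = io a' + io b' →
    (a + a' = 0 ∨ a + a' = a + b) ∧ b' = b + (a + a') := by
  decide

lemma add_self2 (a : ZMod 2) : a + a = 0 := by revert a; decide

lemma add_cancel2 (a b : ZMod 2) : a + (a + b) = b := by revert a b; decide

lemma quad (β η β' η' : B4) (h1 : par β = par η) (h2 : par β = par β')
    (h : cb β + cb η = cb β' + cb η') :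
    (β' = β ∧ η' = η) ∨ (β' = η ∧ η' = β) ∨ (η = an β ∧ η' = an β') := by
  have hc : ∀ j, (β j + β' j = 0 ∨ β j + β' j = β j + η j) ∧ η' j = η j + (β j + β' j) :=
    fun j => coord_dec _ _ _ _ (congrFun h j)
  have hu : ∑ j, (β + η) j = 0 := by
    simp only [Pi.add_apply, Finset.sum_add_distrib]
    have : par β + par η = 0 := by rw [h1, add_self2]
    exact this
  have hd : ∑ j, (β + β') j = 0 := by
    simp only [Pi.add_apply, Finset.sum_add_distrib]
    have : par β + par β' = 0 := by rw [h2, add_self2]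
    exact this
  rcases mask_dec (β + η) (β + β') (fun j => (hc j).1) hu hd with h0 | h0 | h0
  · left
    have e : ∀ j, β j + β' j = 0 := fun j => congrFun h0 j
    constructor
    · funext j
      rw [← add_cancel2 (β j) (β' j), e j, add_zero]
    · funext j
      rw [(hc j).2, e j, add_zero]
  · right; left
    have e : ∀ j, β j + β' j = β j + η j := fun j => congrFun h0 j
    constructor
    · funext j
      exact add_left_cancel (e j)
    · funext j
      rw [(hc j).2, e j, add_comm (β j) (η j), add_cancel2]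
  · right; right
    have e : ∀ j, β j + η j = 1 := fun j => congrFun h0 j
    constructor
    · funext j
      unfold an
      rw [← e j, add_cancel2]
    · funext j
      unfold an
      rw [(hc j).2, ← e j, add_comm (β' j), ← add_assoc, add_comm (β j) (η j), add_assoc]

lemma cb_an (β β' : B4) : cb β + cb (an β) = cb β' + cb (an β') := by
  funext j
  have : ∀ a b : ZMod 2, io a + io (a + 1) = io b + io (b + 1) := by decide
  exact this _ _

lemma an_an (β : B4) : an (an β) = β := by
  funext j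
  have : ∀ a : ZMod 2, a + 1 + 1 = a := by decide
  exact this _

lemma par_an (β : B4) : par (an β) = par β := by
  unfold par an
  rw [Finset.sum_add_distrib]
  have : ∑ _j : Fin 4, (1 : ZMod 2) = 0 := by decide
  rw [this, add_zero]

lemma an_ne (β : B4) : β ≠ an β := by
  intro h
  have := congrFun h 0
  unfold an at this
  have h2 : ∀ a : ZMod 2, a ≠ a + 1 := by decide
  exact h2 _ this

/-- The antipode as a permutation. -/
def anE : Equiv.Perm B4 := ⟨an, an, an_an, an_an⟩

lemma card_par (ε : ZMod 2) : (univ.filter (fun β : B4 => par β = ε)).card = 8 := by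
  revert ε; decide

/-- The pair sum over all pairs with the same sum. -/
noncomputable def QQ (y : B4 → ℝ) (β η : B4) : ℝ :=
  ∑ p : B4 × B4, if cb p.1 + cb p.2 = cb β + cb η then y p.1 * y p.2 else 0

/-- The antipodal sum. -/
noncomputable def YY (y : B4 → ℝ) : ℝ := ∑ β, y β * y (an β)

lemma QQ_le_anti (y : B4 → ℝ) (ε : ZMod 2) (hy : ∀ β, 0 ≤ y β) (hs : ∀ β, y β ≠ 0 → par β = ε)
    (β : B4) (hβ : y β ≠ 0) (_hη : y (an β) ≠ 0) : QQ y β (an β) ≤ YY y := by
  unfold QQ YY
  rw [Fintype.sum_prod_type]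
  refine Finset.sum_le_sum fun β' _ => ?_
  calc _ ≤ ∑ η' : B4, if η' = an β' then y β' * y η' else 0 := by
        refine Finset.sum_le_sum fun η' _ => ?_
        simp only
        by_cases h : cb β' + cb η' = cb β + cb (an β)
        · rw [if_pos h]
          by_cases h0 : y β' = 0
          · rw [h0, zero_mul]; split_ifs <;> simp
          by_cases h1 : y η' = 0
          · rw [h1, mul_zero]; split_ifs <;> simp
          have hq := quad β (an β) β' η' (par_an β).symm (by rw [hs β hβ, hs β' h0]) h.symm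
          have : η' = an β' := by
            rcases hq with ⟨e1, e2⟩ | ⟨e1, e2⟩ | ⟨_, e2⟩
            · rw [e1, e2]
            · rw [e1, e2, an_an]
            · exact e2
          rw [if_pos this]
        · rw [if_neg h]
          split_ifs
          · exact mul_nonneg (hy _) (hy _)
          · exact le_refl _
    _ = _ := by simp

lemma QQ_eq (y : B4 → ℝ) (ε : ZMod 2) (hs : ∀ β, y β ≠ 0 → par β = ε)
    (β η : B4) (hβ : y β ≠ 0) (hη : y η ≠ 0) (hne : η ≠ an β) :
    QQ y β η = if η = β then y β * y η else 2 * (y β * y η) := by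
  unfold QQ
  have h1 : ∑ p : B4 × B4, (if cb p.1 + cb p.2 = cb β + cb η then y p.1 * y p.2 else 0) =
      ∑ p ∈ ({(β, η), (η, β)} : Finset (B4 × B4)), y p.1 * y p.2 := by
    symm
    have h2 : ∑ p ∈ ({(β, η), (η, β)} : Finset (B4 × B4)), y p.1 * y p.2 =
        ∑ p ∈ ({(β, η), (η, β)} : Finset (B4 × B4)),
          (if cb p.1 + cb p.2 = cb β + cb η then y p.1 * y p.2 else 0) := by
      refine Finset.sum_congr rfl fun p hp => ?_
      rw [Finset.mem_insert, Finset.mem_singleton] at hp
      rcases hp with rfl | rfl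
      · rw [if_pos rfl]
      · rw [if_pos (add_comm _ _)]
    rw [h2]
    refine Finset.sum_subset (Finset.subset_univ _) fun p _ hp => ?_
    by_cases h : cb p.1 + cb p.2 = cb β + cb η
    · rw [if_pos h]
      by_cases h0 : y p.1 = 0
      · rw [h0, zero_mul]
      by_cases h1 : y p.2 = 0
      · rw [h1, mul_zero]
      exfalso
      apply hp
      rw [Finset.mem_insert, Finset.mem_singleton]
      have hq := quad β η p.1 p.2 (by rw [hs β hβ, hs η hη]) (by rw [hs β hβ, hs _ h0]) h.symm
      rcases hq with ⟨e1, e2⟩ | ⟨e1, e2⟩ | ⟨e1, _⟩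
      · left; rw [← e1, ← e2]
      · right; rw [← e1, ← e2]
      · exact absurd e1 hne
    · rw [if_neg h]
  rw [h1]
  split_ifs with h
  · subst h
    simp
  · rw [Finset.sum_pair]
    · simp only; ring
    · intro he
      exact h (Prod.mk.inj he).2

lemma sum_sq_eq (y : B4 → ℝ) :
    ∑ t : S4, (∑ p : B4 × B4, if cb p.1 + cb p.2 = t then y p.1 * y p.2 else 0) ^ 2 =
      ∑ q : B4 × B4, (y q.1 * y q.2) * QQ y q.1 q.2 := by
  unfold QQ
  have h1 : ∀ t : S4, (∑ p : B4 × B4, if cb p.1 + cb p.2 = t then y p.1 * y p.2 else 0) ^ 2 =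
      ∑ q : B4 × B4, if cb q.1 + cb q.2 = t then (y q.1 * y q.2) *
        ∑ p : B4 × B4, (if cb p.1 + cb p.2 = t then y p.1 * y p.2 else 0) else 0 := by
    intro t
    rw [sq, Finset.sum_mul]
    refine Finset.sum_congr rfl fun q _ => ?_
    rw [ite_mul, zero_mul]
  rw [Finset.sum_congr rfl (fun t _ => h1 t), Finset.sum_comm]
  refine Finset.sum_congr rfl fun q _ => ?_
  rw [Finset.sum_ite_eq univ (cb q.1 + cb q.2)
    (fun t => (y q.1 * y q.2) * ∑ p : B4 × B4, (if cb p.1 + cb p.2 = t then y p.1 * y p.2 else 0)),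
    if_pos (Finset.mem_univ _)]

/-- The bound on one parity class. -/
theorem RE (y : B4 → ℝ) (ε : ZMod 2) (hy : ∀ β, 0 ≤ y β) (hs : ∀ β, y β ≠ 0 → par β = ε) :
    ∑ t : S4, (∑ p : B4 × B4, if cb p.1 + cb p.2 = t then y p.1 * y p.2 else 0) ^ 2 ≤
      (21 / 8) * (∑ β, y β ^ 2) ^ 2 := by
  rw [sum_sq_eq]
  have hYY : 0 ≤ YY y := Finset.sum_nonneg fun β _ => mul_nonneg (hy _) (hy _)
  set Z := ∑ β, (y β * y (an β)) ^ 2 with hZ
  set a := ∑ β, y β ^ 2 with ha
  set W := ∑ β, (y β ^ 2) ^ 2 with hW
  have h1 : ∑ q : B4 × B4, (y q.1 * y q.2) * QQ y q.1 q.2 ≤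
      ∑ β : B4, ∑ η : B4, ((if η = an β then y β * y (an β) * YY y - 2 * (y β * y (an β)) ^ 2
        else 0) - (if η = β then (y β ^ 2) ^ 2 else 0) + 2 * (y β * y η) ^ 2) := by
    rw [Fintype.sum_prod_type]
    refine Finset.sum_le_sum fun β _ => Finset.sum_le_sum fun η _ => ?_
    simp only
    by_cases h0 : y β = 0
    · rw [h0]; split_ifs <;> simp
    by_cases h1 : y η = 0
    · rw [h1]
      by_cases e1 : η = an β
      · rw [if_pos e1, ← e1, h1]
        have : η ≠ β := by rw [e1]; exact (an_ne β).symm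
        rw [if_neg this]; simp
      · rw [if_neg e1]
        by_cases e2 : η = β
        · exact absurd (e2 ▸ h1) h0
        · rw [if_neg e2]; simp
    by_cases e1 : η = an β
    · have e2 : η ≠ β := by rw [e1]; exact (an_ne β).symm
      rw [if_pos e1, if_neg e2]
      subst e1
      have := QQ_le_anti y ε hy hs β h0 h1
      have h3 := mul_le_mul_of_nonneg_left this (mul_nonneg (hy β) (hy (an β)))
      nlinarith [h3]
    · rw [if_neg e1, QQ_eq y ε hs β η h0 h1 e1]
      by_cases e2 : η = β
      · rw [if_pos e2, if_pos e2, e2]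
        apply le_of_eq; ring
      · rw [if_neg e2, if_neg e2]
        apply le_of_eq; ring
  have h2 : ∑ β : B4, ∑ η : B4, ((if η = an β then y β * y (an β) * YY y -
        2 * (y β * y (an β)) ^ 2 else 0) - (if η = β then (y β ^ 2) ^ 2 else 0) +
        2 * (y β * y η) ^ 2) = YY y ^ 2 - 2 * Z - W + 2 * a ^ 2 := by
    have e : ∀ β : B4, ∑ η : B4, ((if η = an β then y β * y (an β) * YY y -
        2 * (y β * y (an β)) ^ 2 else 0) - (if η = β then (y β ^ 2) ^ 2 else 0) +
        2 * (y β * y η) ^ 2) = (y β * y (an β) * YY y - 2 * (y β * y (an β)) ^ 2) -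
          (y β ^ 2) ^ 2 + 2 * (y β ^ 2 * a) := by
      intro β
      rw [Finset.sum_add_distrib, Finset.sum_sub_distrib]
      simp only [Finset.sum_ite_eq', Finset.mem_univ, if_true]
      congr 1
      rw [ha, Finset.mul_sum, Finset.mul_sum]
      refine Finset.sum_congr rfl fun η _ => ?_
      ring
    rw [Finset.sum_congr rfl (fun β _ => e β), Finset.sum_add_distrib, Finset.sum_sub_distrib,
      Finset.sum_sub_distrib, ← Finset.sum_mul, ← Finset.mul_sum, ← Finset.mul_sum,
      ← Finset.sum_mul]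
    change YY y * YY y - 2 * Z - W + 2 * (a * a) = _
    ring
  have h3 : Z ≤ W := by
    have e1 : ∑ β, (y (an β) ^ 2) ^ 2 = W := by
      rw [hW]
      exact Equiv.sum_comp anE (fun β => (y β ^ 2) ^ 2)
    have e2 : 0 ≤ ∑ β, (y β ^ 2 - y (an β) ^ 2) ^ 2 := Finset.sum_nonneg fun _ _ => sq_nonneg _
    have e3 : ∑ β, (y β ^ 2 - y (an β) ^ 2) ^ 2 = W + ∑ β, (y (an β) ^ 2) ^ 2 - 2 * Z := by
      rw [hW, hZ, Finset.mul_sum, ← Finset.sum_add_distrib, ← Finset.sum_sub_distrib]
      refine Finset.sum_congr rfl fun β _ => ?_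
      ring
    rw [e3, e1] at e2
    linarith
  have h4 : YY y ^ 2 ≤ 8 * Z := by
    have e1 : YY y = ∑ β ∈ univ.filter (fun β : B4 => par β = ε), 1 * (y β * y (an β)) := by
      unfold YY
      rw [Finset.sum_filter]
      refine Finset.sum_congr rfl fun β _ => ?_
      split_ifs with h
      · ring
      · have : y β = 0 := by
          by_contra h0
          exact h (hs β h0)
        rw [this, zero_mul]
    have e2 := Finset.sum_mul_sq_le_sq_mul_sq (univ.filter (fun β : B4 => par β = ε))
      (fun _ => (1 : ℝ)) (fun β => y β * y (an β))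
    rw [← e1] at e2
    refine e2.trans ?_
    have e3 : ∑ _β ∈ univ.filter (fun β : B4 => par β = ε), (1 : ℝ) ^ 2 = 8 := by
      simp only [one_pow, Finset.sum_const, nsmul_eq_mul, mul_one]
      rw [card_par]; norm_num
    rw [e3]
    refine mul_le_mul_of_nonneg_left ?_ (by norm_num)
    exact Finset.sum_le_sum_of_subset_of_nonneg (Finset.subset_univ _) (fun _ _ _ => sq_nonneg _)
  have h5 : YY y ≤ a := by
    have e1 : ∑ β, (y (an β)) ^ 2 = a := by
      rw [ha]
      exact Equiv.sum_comp anE (fun β => (y β) ^ 2)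
    have e2 : 0 ≤ ∑ β, (y β - y (an β)) ^ 2 := Finset.sum_nonneg fun _ _ => sq_nonneg _
    have e3 : ∑ β, (y β - y (an β)) ^ 2 = a + ∑ β, (y (an β)) ^ 2 - 2 * YY y := by
      unfold YY
      rw [ha, Finset.mul_sum, ← Finset.sum_add_distrib, ← Finset.sum_sub_distrib]
      refine Finset.sum_congr rfl fun β _ => ?_
      ring
    rw [e3, e1] at e2
    linarith
  have h6 : YY y ^ 2 ≤ a ^ 2 := pow_le_pow_left₀ hYY h5 2
  rw [h2] at h1
  refine h1.trans ?_
  nlinarith [h3, h4, h6]

end Run7.h765.Mom
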