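import Mathlib
import Pool.Agent.Run7.h765.Mom.M5

set_option autoImplicit false
set_option linter.unusedSectionVars false

/-!
The numerical radius of the transfer matrix and the trace bound.
-/

namespace Run7.h765.Mom

open Finset

section trace

variable {B : Type*} [Fintype B] [DecidableEq B]

/-- Eigenvalues are bounded by the numerical radius. -/
lemma eig_le (T : Matrix B B ℂ) (w : ℝ)
    (hw : ∀ ψ : B → ℂ, ‖∑ β, ∑ β', star (ψ β) * T β β' * ψ β'‖ ≤ w * ∑ β, ‖ψ β‖ ^ 2)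
    (μ : ℂ) (hμ : μ ∈ spectrum ℂ T) : ‖μ‖ ≤ w := by
  have h1 : ¬ IsUnit (algebraMap ℂ (Matrix B B ℂ) μ - T) := hμ
  rw [Matrix.isUnit_iff_isUnit_det, isUnit_iff_ne_zero, not_not] at h1
  obtain ⟨ψ, hψ0, hψ⟩ := Matrix.exists_mulVec_eq_zero_iff.mpr h1
  have h2 : ∀ β, ∑ β', T β β' * ψ β' = μ * ψ β := by
    intro β
    have := congrFun hψ β
    rw [Matrix.sub_mulVec] at this
    have e : (algebraMap ℂ (Matrix B B ℂ) μ).mulVec ψ β = μ * ψ β := by
      rw [Matrix.algebraMap_eq_diagonal, Matrix.mulVec_diagonal]; rfl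
    rw [Pi.sub_apply, e, Pi.zero_apply, sub_eq_zero] at this
    rw [this]; rfl
  have h3 : ∑ β, ∑ β', star (ψ β) * T β β' * ψ β' = μ * ((∑ β, ‖ψ β‖ ^ 2 : ℝ) : ℂ) := by
    push_cast
    rw [Finset.mul_sum]
    refine Finset.sum_congr rfl fun β _ => ?_
    have e : ∑ β', star (ψ β) * T β β' * ψ β' = star (ψ β) * ∑ β', T β β' * ψ β' := by
      rw [Finset.mul_sum]
      exact Finset.sum_congr rfl fun β' _ => by ring
    rw [e, h2, ← Complex.mul_conj']
    simp only [RCLike.star_def]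
    ring
  have h4 := hw ψ
  rw [h3, norm_mul, Complex.norm_real, Real.norm_eq_abs,
    abs_of_nonneg (Finset.sum_nonneg fun _ _ => sq_nonneg _)] at h4
  have h5 : 0 < ∑ β, ‖ψ β‖ ^ 2 := by
    obtain ⟨β, hβ⟩ : ∃ β, ψ β ≠ 0 := by
      by_contra hc
      push Not at hc
      exact hψ0 (funext hc)
    exact Finset.sum_pos' (fun _ _ => sq_nonneg _)
      ⟨β, Finset.mem_univ _, pow_pos (norm_pos_iff.mpr hβ) 2⟩
  exact le_of_mul_le_mul_right h4 h5

lemma trace_pow_le (T : Matrix B B ℂ) (w : ℝ) (hw0 : 0 ≤ w)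
    (hw : ∀ ψ : B → ℂ, ‖∑ β, ∑ β', star (ψ β) * T β β' * ψ β'‖ ≤ w * ∑ β, ‖ψ β‖ ^ 2)
    (n : ℕ) (hn : 0 < n) : ‖(T ^ n).trace‖ ≤ Fintype.card B * w ^ n := by
  rw [Matrix.trace_eq_sum_roots_charpoly]
  have h1 : ∀ x ∈ (T ^ n).charpoly.roots, ‖x‖ ≤ w ^ n := by
    intro x hx
    have h2 : x ∈ spectrum ℂ (T ^ n) := by
      rw [Matrix.mem_spectrum_iff_isRoot_charpoly]
      exact Polynomial.isRoot_of_mem_roots hx
    rw [spectrum.map_pow_of_pos T hn] at h2
    obtain ⟨μ, hμ, rfl⟩ := h2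
    simp only [norm_pow]
    exact pow_le_pow_left₀ (norm_nonneg _) (eig_le T w hw μ hμ) n
  have h3 : ∀ m : Multiset ℂ, (∀ x ∈ m, ‖x‖ ≤ w ^ n) → ‖m.sum‖ ≤ (Multiset.card m : ℝ) * w ^ n := by
    intro m
    induction m using Multiset.induction with
    | empty => intro _; simp
    | cons a m ih =>
      intro h
      rw [Multiset.sum_cons, Multiset.card_cons]
      push_cast
      calc ‖a + m.sum‖ ≤ ‖a‖ + ‖m.sum‖ := norm_add_le _ _
        _ ≤ w ^ n + (Multiset.card m : ℝ) * w ^ n :=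
            add_le_add (h a (Multiset.mem_cons_self _ _))
              (ih fun x hx => h x (Multiset.mem_cons_of_mem hx))
        _ = _ := by ring
  refine (h3 _ h1).trans ?_
  refine mul_le_mul_of_nonneg_right ?_ (pow_nonneg hw0 _)
  have h4 := Polynomial.card_roots' (T ^ n).charpoly
  rw [Matrix.charpoly_natDegree_eq_dim] at h4
  exact_mod_cast h4

end trace

lemma cross_lemma {P Q S : Type*} [Fintype P] [Fintype Q] [Fintype S] [DecidableEq S]
    (u : P → S) (v : Q → S) (f : P → ℂ) (g : Q → ℂ) :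
    ∑ t : S, (∑ p, if u p = t then f p else 0) * (∑ q, if v q = t then g q else 0) =
      ∑ p, ∑ q, if u p = v q then f p * g q else 0 := by
  simp_rw [Finset.sum_mul_sum]
  rw [Finset.sum_comm]
  refine Finset.sum_congr rfl fun p _ => ?_
  rw [Finset.sum_comm]
  refine Finset.sum_congr rfl fun q _ => ?_
  rw [Finset.sum_eq_single (u p)]
  · rw [if_pos rfl]
    by_cases h : u p = v q
    · rw [if_pos h.symm, if_pos h]
    · rw [if_neg (fun h' => h h'.symm), if_neg h, mul_zero]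
  · intro t _ ht
    rw [if_neg (fun h => ht h.symm), zero_mul]
  · intro h; exact absurd (Finset.mem_univ _) h

/-- The coefficients of the quadratic form. -/
noncomputable def gg (ψ : B4 → ℂ) (t : S4) : ℂ :=
  ∑ p : B4 × B4, if cb p.1 - cb p.2 = t then star (ψ p.1) * ((sb p.1 : ℤ) : ℂ) * ψ p.2 else 0

/-- The crossed coefficients. -/
noncomputable def GG (ψ : B4 → ℂ) (t : S4) : ℂ :=
  ∑ p : B4 × B4, if cb p.1 + cb p.2 = t then ψ p.1 * ψ p.2 * ((sb p.2 : ℤ) : ℂ) else 0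

lemma star_ite_sum {P S : Type*} [Fintype P] [DecidableEq S] (u : P → S) (t : S) (f : P → ℂ) :
    star (∑ p, if u p = t then f p else 0) = ∑ p, if u p = t then star (f p) else 0 := by
  rw [star_sum]
  refine Finset.sum_congr rfl fun p _ => ?_
  split_ifs
  · rfl
  · exact star_zero _

/-- Crossing of four indices. -/
def crossE (B : Type*) : ((B × B) × (B × B)) ≃ ((B × B) × (B × B)) where
  toFun x := ((x.1.2, x.2.1), (x.2.2, x.1.1))
  invFun x := ((x.2.2, x.1.1), (x.1.2, x.2.1))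
  left_inv _ := rfl
  right_inv _ := rfl

lemma crossing (ψ : B4 → ℂ) : ∑ t : S4, ‖gg ψ t‖ ^ 2 = ∑ t : S4, ‖GG ψ t‖ ^ 2 := by
  have key : (((∑ t : S4, ‖gg ψ t‖ ^ 2 : ℝ)) : ℂ) = (((∑ t : S4, ‖GG ψ t‖ ^ 2 : ℝ)) : ℂ) := by
    push_cast
    have e1 : ∀ z : ℂ, (‖z‖ : ℂ) ^ 2 = z * star z := by
      intro z
      rw [← Complex.mul_conj']
      rfl
    simp_rw [e1]
    have e2 : ∀ t, gg ψ t * star (gg ψ t) =
        (∑ p : B4 × B4, if cb p.1 - cb p.2 = t then
          star (ψ p.1) * ((sb p.1 : ℤ) : ℂ) * ψ p.2 else 0) *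
        (∑ p : B4 × B4, if cb p.1 - cb p.2 = t then
          star (star (ψ p.1) * ((sb p.1 : ℤ) : ℂ) * ψ p.2) else 0) := by
      intro t
      unfold gg
      rw [star_ite_sum (fun p : B4 × B4 => cb p.1 - cb p.2)]
    have e3 : ∀ t, GG ψ t * star (GG ψ t) =
        (∑ p : B4 × B4, if cb p.1 + cb p.2 = t then
          ψ p.1 * ψ p.2 * ((sb p.2 : ℤ) : ℂ) else 0) *
        (∑ p : B4 × B4, if cb p.1 + cb p.2 = t then
          star (ψ p.1 * ψ p.2 * ((sb p.2 : ℤ) : ℂ)) else 0) := by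
      intro t
      unfold GG
      rw [star_ite_sum (fun p : B4 × B4 => cb p.1 + cb p.2)]
    rw [Finset.sum_congr rfl (fun t _ => e2 t), Finset.sum_congr rfl (fun t _ => e3 t)]
    rw [cross_lemma (fun p : B4 × B4 => cb p.1 - cb p.2) (fun p : B4 × B4 => cb p.1 - cb p.2),
      cross_lemma (fun p : B4 × B4 => cb p.1 + cb p.2) (fun p : B4 × B4 => cb p.1 + cb p.2)]
    rw [← Fintype.sum_prod_type', ← Fintype.sum_prod_type']
    refine Fintype.sum_equiv (crossE B4) _ _ fun x => ?_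
    obtain ⟨⟨b, b'⟩, ⟨c, c'⟩⟩ := x
    change (if cb b - cb b' = cb c - cb c' then (star (ψ b) * ((sb b : ℤ) : ℂ) * ψ b') *
      star (star (ψ c) * ((sb c : ℤ) : ℂ) * ψ c') else 0) =
      (if cb b' + cb c = cb c' + cb b then (ψ b' * ψ c * ((sb c : ℤ) : ℂ)) *
        star (ψ c' * ψ b * ((sb b : ℤ) : ℂ)) else 0)
    have hiff : (cb b - cb b' = cb c - cb c') ↔ (cb b' + cb c = cb c' + cb b) := by
      constructor
      · intro h
        rw [sub_eq_sub_iff_add_eq_add] at h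
        rw [add_comm (cb c') (cb b), h, add_comm]
      · intro h
        rw [sub_eq_sub_iff_add_eq_add, add_comm (cb b) (cb c'), ← h, add_comm]
    by_cases h : cb b - cb b' = cb c - cb c'
    · rw [if_pos h, if_pos (hiff.mp h)]
      simp only [star_mul', star_star]
      have hs : ∀ k : ℤ, star ((k : ℂ)) = (k : ℂ) := by
        intro k
        simp
      rw [hs, hs]
      ring
    · rw [if_neg h, if_neg (fun h' => h (hiff.mpr h'))]
  exact_mod_cast key

lemma sb_par : ∀ β : B4, sb β = sg (par β) := by decide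

lemma sg_sum (a b : ZMod 2) : |(sg a : ℝ) + (sg b : ℝ)| = if a = b then 2 else 0 := by
  have h : ∀ a b : ZMod 2, sg a + sg b = if a = b then 2 * sg a else 0 := by decide
  have h1 : (sg a : ℝ) + (sg b : ℝ) = (((sg a + sg b : ℤ)) : ℝ) := by push_cast; rfl
  rw [h1, h]
  split_ifs
  · have h2 : sg a = 1 ∨ sg a = -1 := by
      unfold sg; split_ifs <;> simp
    rcases h2 with h2 | h2 <;> rw [h2] <;> norm_num
  · simp

/-- The real pair sums. -/
noncomputable def SS (x : B4 → ℝ) (t : S4) : ℝ :=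
  ∑ p : B4 × B4, if cb p.1 + cb p.2 = t ∧ par p.1 = par p.2 then x p.1 * x p.2 else 0

lemma GG_le (ψ : B4 → ℂ) (t : S4) : ‖GG ψ t‖ ≤ SS (fun β => ‖ψ β‖) t := by
  have h1 : GG ψ t = ∑ p : B4 × B4, if cb p.1 + cb p.2 = t then
      ψ p.1 * ψ p.2 * ((sb p.1 : ℤ) : ℂ) else 0 := by
    unfold GG
    rw [← Equiv.sum_comp (Equiv.prodComm B4 B4)]
    refine Finset.sum_congr rfl fun p _ => ?_
    change (if cb p.2 + cb p.1 = t then ψ p.2 * ψ p.1 * ((sb p.1 : ℤ) : ℂ) else 0) = _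
    by_cases h : cb p.1 + cb p.2 = t
    · rw [if_pos h, if_pos (by rw [add_comm]; exact h), mul_comm (ψ p.2) (ψ p.1)]
    · rw [if_neg h, if_neg (fun h' => h (by rw [add_comm]; exact h'))]
  have h2 : GG ψ t = ∑ p : B4 × B4, if cb p.1 + cb p.2 = t then
      ψ p.1 * ψ p.2 * ((((sg (par p.2) : ℝ) + (sg (par p.1) : ℝ)) / 2 : ℝ) : ℂ) else 0 := by
    have e : GG ψ t = (1 / 2 : ℂ) * (GG ψ t + ∑ p : B4 × B4, if cb p.1 + cb p.2 = t then
      ψ p.1 * ψ p.2 * ((sb p.1 : ℤ) : ℂ) else 0) := by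
      rw [← h1]; ring
    rw [e]
    unfold GG
    rw [← Finset.sum_add_distrib, Finset.mul_sum]
    refine Finset.sum_congr rfl fun p _ => ?_
    split_ifs
    · rw [sb_par, sb_par]; push_cast; ring
    · ring
  rw [h2]
  refine (norm_sum_le _ _).trans ?_
  unfold SS
  refine Finset.sum_le_sum fun p _ => ?_
  by_cases h : cb p.1 + cb p.2 = t
  · rw [if_pos h, norm_mul, norm_mul, Complex.norm_real, Real.norm_eq_abs, abs_div, sg_sum]
    by_cases h' : par p.2 = par p.1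
    · rw [if_pos h', if_pos ⟨h, h'.symm⟩]
      norm_num
    · rw [if_neg h', if_neg (fun hh => h' hh.2.symm)]
      norm_num
  · rw [if_neg h, norm_zero]
    split_ifs
    · exact mul_nonneg (norm_nonneg _) (norm_nonneg _)
    · exact le_refl _

lemma SS_bound (x : B4 → ℝ) (hx : ∀ β, 0 ≤ x β) :
    ∑ t : S4, SS x t ^ 2 ≤ (21 / 8) * (∑ β, x β ^ 2) ^ 2 := by
  let y : ZMod 2 → B4 → ℝ := fun ε β => if par β = ε then x β else 0
  have hy : ∀ ε β, 0 ≤ y ε β := by
    intro ε β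
    simp only [y]
    split_ifs
    · exact hx _
    · exact le_refl _
  have hs : ∀ ε β, y ε β ≠ 0 → par β = ε := by
    intro ε β h
    by_contra h'
    exact h (if_neg h')
  let U : ZMod 2 → S4 → ℝ := fun ε t =>
    ∑ p : B4 × B4, if cb p.1 + cb p.2 = t then y ε p.1 * y ε p.2 else 0
  have hU : ∀ ε t, 0 ≤ U ε t := by
    intro ε t
    refine Finset.sum_nonneg fun p _ => ?_
    split_ifs
    · exact mul_nonneg (hy _ _) (hy _ _)
    · exact le_refl _
  have hSU : ∀ t, SS x t = U 0 t + U 1 t := by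
    intro t
    simp only [SS, U]
    rw [← Finset.sum_add_distrib]
    refine Finset.sum_congr rfl fun p _ => ?_
    by_cases h : cb p.1 + cb p.2 = t
    · simp only [h, true_and, if_true, y]
      have h01 : ∀ a : ZMod 2, a = 0 ∨ a = 1 := by decide
      have hne : (0 : ZMod 2) ≠ 1 := by decide
      rcases h01 (par p.1) with h1 | h1 <;> rcases h01 (par p.2) with h2 | h2 <;>
        simp [h1, h2]
    · simp [h]
  set a0 := ∑ β, y 0 β ^ 2 with ha0
  set a1 := ∑ β, y 1 β ^ 2 with ha1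
  have h0 : ∑ t, U 0 t ^ 2 ≤ (21 / 8) * a0 ^ 2 := RE (y 0) 0 (hy 0) (hs 0)
  have h1 : ∑ t, U 1 t ^ 2 ≤ (21 / 8) * a1 ^ 2 := RE (y 1) 1 (hy 1) (hs 1)
  have ha0' : 0 ≤ a0 := Finset.sum_nonneg fun _ _ => sq_nonneg _
  have ha1' : 0 ≤ a1 := Finset.sum_nonneg fun _ _ => sq_nonneg _
  have h01 : ∑ t, U 0 t * U 1 t ≤ (21 / 8) * (a0 * a1) := by
    have e := Finset.sum_mul_sq_le_sq_mul_sq univ (U 0) (U 1)
    have e1 : (∑ t, U 0 t ^ 2) * (∑ t, U 1 t ^ 2) ≤ ((21 / 8) * a0 ^ 2) * ((21 / 8) * a1 ^ 2) :=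
      mul_le_mul h0 h1 (Finset.sum_nonneg fun _ _ => sq_nonneg _) (by positivity)
    have e2 : (∑ t, U 0 t * U 1 t) ^ 2 ≤ ((21 / 8) * (a0 * a1)) ^ 2 := by
      refine e.trans (e1.trans (le_of_eq ?_))
      ring
    exact (le_abs_self _).trans (abs_le_of_sq_le_sq e2 (by positivity))
  have hsum : ∑ β, x β ^ 2 = a0 + a1 := by
    rw [ha0, ha1, ← Finset.sum_add_distrib]
    refine Finset.sum_congr rfl fun β _ => ?_
    simp only [y]
    have h01 : ∀ a : ZMod 2, a = 0 ∨ a = 1 := by decide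
    rcases h01 (par β) with h1 | h1 <;> simp [h1]
  have hexp : ∑ t : S4, SS x t ^ 2 = ∑ t, U 0 t ^ 2 + ∑ t, U 1 t ^ 2 + 2 * ∑ t, U 0 t * U 1 t := by
    rw [Finset.mul_sum, ← Finset.sum_add_distrib, ← Finset.sum_add_distrib]
    refine Finset.sum_congr rfl fun t _ => ?_
    rw [hSU]; ring
  rw [hexp, hsum]
  nlinarith [h0, h1, h01]

end Run7.h765.Mom
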