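import Mathlib
import Pool.Agent.Run7.h765.Mom.M6

set_option autoImplicit false
set_option linter.unusedSectionVars false

/-!
The fourth moment.
-/

namespace Run7.h765.Mom

open Finset

lemma form_eq (X : S4 → ℂ) (ψ : B4 → ℂ) :
    ∑ β, ∑ β', star (ψ β) * TM X β β' * ψ β' = ∑ t : S4, X t * gg ψ t := by
  have h0 : ∑ β : B4, ∑ β' : B4, star (ψ β) * TM X β β' * ψ β' =
      ∑ p : B4 × B4, star (ψ p.1) * TM X p.1 p.2 * ψ p.2 :=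
    (Fintype.sum_prod_type' (fun β β' : B4 => star (ψ β) * TM X β β' * ψ β')).symm
  rw [h0]
  unfold gg
  simp_rw [Finset.mul_sum]
  rw [Finset.sum_comm]
  refine Finset.sum_congr rfl fun p _ => ?_
  rw [Finset.sum_eq_single (cb p.1 - cb p.2)]
  · rw [if_pos rfl]
    unfold TM
    ring
  · intro t _ ht
    rw [if_neg (fun h => ht h.symm), mul_zero]
  · intro h; exact absurd (Finset.mem_univ _) h

lemma form_bound (X : S4 → ℂ) (ψ : B4 → ℂ) :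
    ‖∑ β, ∑ β', star (ψ β) * TM X β β' * ψ β'‖ ≤
      Real.sqrt ((21 / 8) * ∑ t, ‖X t‖ ^ 2) * ∑ β, ‖ψ β‖ ^ 2 := by
  rw [form_eq]
  have h1 : ‖∑ t : S4, X t * gg ψ t‖ ≤ ∑ t : S4, ‖X t‖ * ‖gg ψ t‖ := by
    refine (norm_sum_le _ _).trans (le_of_eq ?_)
    exact Finset.sum_congr rfl fun t _ => norm_mul _ _
  refine h1.trans ?_
  have h2 := Finset.sum_mul_sq_le_sq_mul_sq univ (fun t : S4 => ‖X t‖) (fun t => ‖gg ψ t‖)
  have h3 : ∑ t : S4, ‖gg ψ t‖ ^ 2 ≤ (21 / 8) * (∑ β, ‖ψ β‖ ^ 2) ^ 2 := by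
    rw [crossing]
    refine le_trans ?_ (SS_bound (fun β => ‖ψ β‖) (fun β => norm_nonneg _))
    refine Finset.sum_le_sum fun t _ => ?_
    exact pow_le_pow_left₀ (norm_nonneg _) (GG_le ψ t) 2
  have h0 : 0 ≤ ∑ t, ‖X t‖ ^ 2 := Finset.sum_nonneg fun _ _ => sq_nonneg _
  have h4 : (∑ t : S4, ‖X t‖ * ‖gg ψ t‖) ^ 2 ≤
      (Real.sqrt ((21 / 8) * ∑ t, ‖X t‖ ^ 2) * ∑ β, ‖ψ β‖ ^ 2) ^ 2 := by
    rw [mul_pow, Real.sq_sqrt (by positivity)]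
    refine h2.trans ((mul_le_mul_of_nonneg_left h3 h0).trans (le_of_eq ?_))
    ring
  have h5 : 0 ≤ Real.sqrt ((21 / 8) * ∑ t, ‖X t‖ ^ 2) * ∑ β, ‖ψ β‖ ^ 2 :=
    mul_nonneg (Real.sqrt_nonneg _) (Finset.sum_nonneg fun _ _ => sq_nonneg _)
  exact (le_abs_self _).trans (abs_le_of_sq_le_sq h4 h5)

lemma gen_bound (n : ℕ) (hn : 0 < n) (X : S4 → ℂ) :
    ‖gen (AA (r := 4) (finRotate n)) X‖ ^ 2 ≤
      (256 * (21 / 8) ^ n) * (∑ a, ‖X a‖ ^ 2) ^ (Fintype.card (Fin n)) := by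
  obtain ⟨m, rfl⟩ : ∃ m, n = m + 1 := ⟨n - 1, by omega⟩
  rw [gen_trace]
  have h1 := trace_pow_le (TM X) (Real.sqrt ((21 / 8) * ∑ t, ‖X t‖ ^ 2)) (Real.sqrt_nonneg _)
    (form_bound X) (m + 1) (Nat.succ_pos _)
  have hB : Fintype.card (Fin 4 → ZMod 2) = 16 := by decide
  rw [hB] at h1
  have h0 : 0 ≤ ∑ t, ‖X t‖ ^ 2 := Finset.sum_nonneg fun _ _ => sq_nonneg _
  calc ‖((TM X) ^ (m + 1)).trace‖ ^ 2
      ≤ (((16 : ℕ) : ℝ) * (Real.sqrt ((21 / 8) * ∑ t, ‖X t‖ ^ 2)) ^ (m + 1)) ^ 2 :=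
        pow_le_pow_left₀ (norm_nonneg _) h1 2
    _ = 256 * ((Real.sqrt ((21 / 8) * ∑ t, ‖X t‖ ^ 2)) ^ 2) ^ (m + 1) := by
        rw [mul_pow, ← pow_mul, ← pow_mul, mul_comm (m + 1) 2]; norm_num
    _ = 256 * ((21 / 8) * ∑ t, ‖X t‖ ^ 2) ^ (m + 1) := by
        rw [Real.sq_sqrt (by positivity)]
    _ = _ := by rw [mul_pow, Fintype.card_fin]; ring

/-- The fourth moment. -/
theorem fourth_moment (n : ℕ) (hn : 0 < n) :
    ∑ π : Equiv.Perm (Fin n), (cc (finRotate n) (π * finRotate n * π⁻¹) : ℝ) ^ 4 ≤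
      ((n : ℝ) + 1) ^ 162 * (256 * (21 / 8) ^ n) * (Nat.factorial n : ℝ) := by
  have h1 : ∀ π : Equiv.Perm (Fin n), (cc (finRotate n) (π * finRotate n * π⁻¹) : ℝ) ^ 4 =
      ∑ s : Fin n → S4, AA (finRotate n) s * AA (finRotate n) (s ∘ π) := by
    intro π
    rw [cc_pow (r := 4) (by decide)]
    refine Finset.sum_congr rfl fun s _ => ?_
    rw [AA_conj]
    rfl
  rw [Finset.sum_congr rfl (fun π _ => h1 π)]
  refine (avg_le (AA (r := 4) (finRotate n)) (256 * (21 / 8) ^ n) (gen_bound n hn)).trans ?_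
  rw [Fintype.card_fin]
  have h2 : ((KT (Fin n) S4).card : ℝ) ≤ ((n : ℝ) + 1) ^ 81 := by
    have := card_KT (V := Fin n) (S := S4)
    have hS : Fintype.card S4 = 81 := by
      rw [Fintype.card_fun, ZMod.card, Fintype.card_fin]; norm_num
    rw [hS, Fintype.card_fin] at this
    exact_mod_cast this
  have h3 : ((KT (Fin n) S4).card : ℝ) ^ 2 ≤ ((n : ℝ) + 1) ^ 162 := by
    calc ((KT (Fin n) S4).card : ℝ) ^ 2 ≤ (((n : ℝ) + 1) ^ 81) ^ 2 :=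
          pow_le_pow_left₀ (Nat.cast_nonneg _) h2 2
      _ = _ := by rw [← pow_mul]
  refine mul_le_mul_of_nonneg_right ?_ (Nat.cast_nonneg _)
  exact mul_le_mul_of_nonneg_right h3 (by positivity)

end Run7.h765.Mom
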