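import Mathlib
import Pool.Agent.Run7.h765.Mom.M3

set_option autoImplicit false
set_option linter.unusedSectionVars false

/-!
The second moment.
-/

namespace Run7.h765.Mom

open Finset

/-- Bond states for two replicas. -/
abbrev B2 := Fin 2 → ZMod 2

/-- Site states for two replicas. -/
abbrev S2 := Fin 2 → ZMod 3

/-- The test vector. -/
def X2 (s : S2) : ℤ :=
  if s = 0 then -2 else if s = ![1, 2] then 1 else if s = ![2, 1] then 1 else 0

/-- The integer matrix. -/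
def T2 (β β' : B2) : ℤ := sb β * X2 (cb β - cb β')

/-- The explicit power, times two. -/
def E2 (n : ℕ) (β β' : B2) : ℤ :=
  if β = β' then (if β 0 = β 1 then 2 * (-2) ^ n else 3 ^ n + 1) else
    if β 0 = β' 1 ∧ β 1 = β' 0 then 1 - 3 ^ n else 0

lemma B2_cases : ∀ β : B2, β = ![0, 0] ∨ β = ![0, 1] ∨ β = ![1, 0] ∨ β = ![1, 1] := by decide

lemma B2_univ : (Finset.univ : Finset B2) = {![0, 0], ![0, 1], ![1, 0], ![1, 1]} := by decide

lemma B2_sum (f : B2 → ℤ) : ∑ β, f β = f ![0, 0] + f ![0, 1] + f ![1, 0] + f ![1, 1] := by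
  rw [B2_univ, Finset.sum_insert (by decide), Finset.sum_insert (by decide),
    Finset.sum_insert (by decide), Finset.sum_singleton]
  ring

lemma T2_eq : ∀ β β' : B2, T2 β β' =
    if β = β' then (if β 0 = β 1 then -2 else 2) else
      if β 0 = β' 1 ∧ β 1 = β' 0 then -1 else 0 := by
  decide

lemma E2_succ (n : ℕ) (β β' : B2) : E2 (n + 1) β β' = ∑ β'', T2 β β'' * E2 n β'' β' := by
  rw [B2_sum]
  simp only [T2_eq]
  unfold E2
  rcases B2_cases β with h | h | h | h <;> rcases B2_cases β' with h' | h' | h' | h' <;>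
    subst h <;> subst h' <;> simp (decide := true) <;> ring

lemma TM_pow (n : ℕ) : ∀ β β' : B2,
    2 * ((TM (fun a => ((X2 a : ℤ) : ℂ)) ^ n) β β') = ((E2 n β β' : ℤ) : ℂ) := by
  induction n with
  | zero =>
    intro β β'
    rw [pow_zero, Matrix.one_apply]
    unfold E2
    by_cases h : β = β'
    · simp only [h, if_true, pow_zero]
      split_ifs <;> norm_num
    · simp only [h, if_false, pow_zero]
      split_ifs <;> norm_num
  | succ n ih =>
    intro β β'
    rw [pow_succ', Matrix.mul_apply, E2_succ, Finset.mul_sum]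
    push_cast
    refine Finset.sum_congr rfl fun β'' _ => ?_
    rw [← ih]
    unfold TM T2
    push_cast
    ring

lemma trace_two (n : ℕ) : ((TM (fun a => ((X2 a : ℤ) : ℂ))) ^ n).trace =
    (((3 ^ n + 1 + 2 * (-2) ^ n : ℤ)) : ℂ) := by
  have h : 2 * ((TM (fun a => ((X2 a : ℤ) : ℂ))) ^ n).trace =
      2 * (((3 ^ n + 1 + 2 * (-2) ^ n : ℤ)) : ℂ) := by
    unfold Matrix.trace
    rw [Finset.mul_sum]
    simp only [Matrix.diag_apply, TM_pow]
    rw [← Int.cast_sum, B2_sum]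
    unfold E2
    simp (decide := true)
    ring
  exact mul_left_cancel₀ two_ne_zero h

lemma X2_sq : ∑ a : S2, ((X2 a : ℤ) : ℝ) ^ 2 = 6 := by
  have h : ∑ a : S2, (X2 a) ^ 2 = 6 := by decide
  exact_mod_cast h

/-- The second moment. -/
theorem second_moment (n : ℕ) (hn : 0 < n) :
    ((3 : ℝ) ^ n + 1 + 2 * (-2) ^ n) ^ 2 * (Nat.factorial n : ℝ) ≤
      6 ^ n * ∑ π : Equiv.Perm (Fin n), (cc (finRotate n) (π * finRotate n * π⁻¹) : ℝ) ^ 2 := by
  have h1 : ∀ π : Equiv.Perm (Fin n), (cc (finRotate n) (π * finRotate n * π⁻¹) : ℝ) ^ 2 =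
      ∑ s : Fin n → S2, AA (finRotate n) s * AA (finRotate n) (s ∘ π) := by
    intro π
    rw [cc_pow (r := 2) (by decide)]
    refine Finset.sum_congr rfl fun s _ => ?_
    rw [AA_conj]
    rfl
  rw [Finset.sum_congr rfl (fun π _ => h1 π)]
  have h2 := avg_ge (AA (r := 2) (finRotate n)) (fun a => ((X2 a : ℤ) : ℝ))
  rw [X2_sq, Fintype.card_fin] at h2
  have h3 : ∑ s : Fin n → S2, AA (finRotate n) s * ∏ v, ((X2 (s v) : ℤ) : ℝ) =
      (3 : ℝ) ^ n + 1 + 2 * (-2) ^ n := by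
    obtain ⟨m, rfl⟩ : ∃ m, n = m + 1 := ⟨n - 1, by omega⟩
    have h4 := gen_trace (r := 2) m (fun a => ((X2 a : ℤ) : ℂ))
    rw [trace_two] at h4
    unfold gen at h4
    have h5 : ((∑ s : Fin (m + 1) → S2, AA (finRotate (m + 1)) s *
        ∏ v, ((X2 (s v) : ℤ) : ℝ) : ℝ) : ℂ) = (((3 : ℝ) ^ (m + 1) + 1 + 2 * (-2) ^ (m + 1) : ℝ) : ℂ)
        := by
      push_cast
      push_cast at h4
      exact h4
    exact_mod_cast h5
  rw [h3] at h2
  exact h2

end Run7.h765.Mom
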