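import Mathlib
import Pool.Agent.Run7.h765.Mom.M7
import Pool.Agent.Run7.h765.Mom.M8
import Pool.Agent.Run7.h765.Count

set_option autoImplicit false
set_option linter.unusedSectionVars false

/-!
The moment bound.
-/

namespace Run7.h765.Mom

open Finset

lemma cc_conj {V : Type*} [Fintype V] [DecidableEq V] (σ τ ρ : Equiv.Perm V) :
    cc (ρ * σ * ρ⁻¹) (ρ * τ * ρ⁻¹) = cc σ τ := by
  have h : (cc (ρ * σ * ρ⁻¹) (ρ * τ * ρ⁻¹) : ℝ) = (cc σ τ : ℝ) := by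
    rw [cc_real, cc_real]
    congr 1
    rw [← Equiv.sum_comp (Equiv.arrowCongr ρ (Equiv.refl (ZMod 3)))]
    refine Finset.sum_congr rfl fun d _ => ?_
    rw [av_conj, av_conj]
    have e : (fun v => (Equiv.arrowCongr ρ (Equiv.refl (ZMod 3))) d (ρ v)) = d := by
      funext v
      simp [Equiv.arrowCongr]
    rw [e]
  exact_mod_cast h

lemma low_num (n : ℕ) (hn : 3 ≤ n) : (4 / 9 : ℝ) * 3 ^ n ≤ 3 ^ n + 1 + 2 * (-2) ^ n := by
  have h1 : ∀ k : ℕ, (2 : ℝ) ^ (k + 4) ≤ (5 / 9 : ℝ) * 3 ^ (k + 3) + 1 := by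
    intro k
    induction k with
    | zero => norm_num
    | succ k ih =>
      have e1 : (2 : ℝ) ^ (k + 1 + 4) = 2 * 2 ^ (k + 4) := by ring
      have e2 : (3 : ℝ) ^ (k + 1 + 3) = 3 * 3 ^ (k + 3) := by ring
      have e3 : (2 : ℝ) ≤ 2 ^ (k + 4) := by
        have e4 : (1 : ℝ) ≤ 2 ^ (k + 3) := one_le_pow₀ (by norm_num)
        have e5 : (2 : ℝ) ^ (k + 4) = 2 * 2 ^ (k + 3) := by ring
        rw [e5]; linarith
      rw [e1, e2]
      nlinarith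
  obtain ⟨k, rfl⟩ : ∃ k, n = k + 3 := ⟨n - 3, by omega⟩
  have h2 := h1 k
  have h3 : -(2 : ℝ) ^ (k + 3) ≤ (-2) ^ (k + 3) := by
    have : |(-2 : ℝ) ^ (k + 3)| = 2 ^ (k + 3) := by
      rw [abs_pow]; norm_num
    rw [← this]
    exact neg_abs_le _
  have h4 : (2 : ℝ) ^ (k + 4) = 2 * 2 ^ (k + 3) := by ring
  rw [h4] at h2
  linarith

lemma alg (a f D g : ℝ) (hf : 0 < f) (hD : 0 < D) (h : (a * f) ^ 2 ≤ g * (D * f)) :
    a ^ 2 / D * f ≤ g := by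
  rw [div_mul_eq_mul_div, div_le_iff₀ hD]
  have h1 : (a ^ 2 * f) * f ≤ (g * D) * f := by
    calc (a ^ 2 * f) * f = (a * f) ^ 2 := by ring
      _ ≤ _ := h
      _ = _ := by ring
  exact le_of_mul_le_mul_right h1 hf

lemma num_id (t μ a b d N : ℝ) (hμ : μ = (16 / 81) * a) (h : a ^ 2 = b * d) (hb : 0 < b)
    (hN : 0 < N) : t ^ 2 * d / (6561 * N) = (t * μ) ^ 2 / (N * (256 * b)) := by
  rw [div_eq_div_iff (by positivity) (by positivity), hμ, mul_pow, mul_pow, h]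
  ring

/-- The proportion of enumerations with a large coefficient. -/
theorem prop_enum (n : ℕ) (hn : 3 ≤ n) (θ : ℝ) (hθ0 : 0 ≤ θ) (hθ1 : θ ≤ 1) :
    (1 - θ) ^ 2 * (6 / 7 : ℝ) ^ n / (6561 * ((n : ℝ) + 1) ^ 162) * (Nat.factorial n : ℝ) ≤
      ((Finset.univ.filter (fun π : Equiv.Perm (Fin n) =>
        θ * ((16 / 81) * (3 / 2) ^ n) <
          (cc (finRotate n) (π * finRotate n * π⁻¹) : ℝ) ^ 2)).card : ℝ) := by
  set c : Equiv.Perm (Fin n) → ℝ := fun π => (cc (finRotate n) (π * finRotate n * π⁻¹) : ℝ) with hc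
  set μ : ℝ := (16 / 81) * (3 / 2) ^ n with hμ
  have hμ0 : 0 < μ := by positivity
  set G := Finset.univ.filter (fun π : Equiv.Perm (Fin n) => θ * μ < c π ^ 2) with hG
  set f := (Nat.factorial n : ℝ) with hf
  have hfpos : 0 < f := by
    rw [hf]; exact_mod_cast Nat.factorial_pos n
  have h4 : ∑ π, c π ^ 4 ≤ ((n : ℝ) + 1) ^ 162 * (256 * (21 / 8) ^ n) * f :=
    fourth_moment n (by omega)
  obtain ⟨N, hN⟩ : ∃ N : ℝ, N = ((n : ℝ) + 1) ^ 162 := ⟨_, rfl⟩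
  rw [← hN] at h4 ⊢
  have hNpos : 0 < N := by rw [hN]; positivity
  have h2 : ((3 : ℝ) ^ n + 1 + 2 * (-2) ^ n) ^ 2 * f ≤ 6 ^ n * ∑ π, c π ^ 2 :=
    second_moment n (by omega)
  have h2' : μ * f ≤ ∑ π, c π ^ 2 := by
    have e1 : ((4 / 9 : ℝ) * 3 ^ n) ^ 2 * f ≤ 6 ^ n * ∑ π, c π ^ 2 := by
      refine le_trans (mul_le_mul_of_nonneg_right ?_ hfpos.le) h2
      exact pow_le_pow_left₀ (by positivity) (low_num n hn) 2
    have e2 : ((4 / 9 : ℝ) * 3 ^ n) ^ 2 * f = 6 ^ n * (μ * f) := by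
      have e3 : ((3 : ℝ) ^ n) ^ 2 = 6 ^ n * (3 / 2) ^ n := by
        rw [← pow_mul, mul_comm, pow_mul, ← mul_pow]; norm_num
      rw [mul_pow, e3, hμ]
      ring
    rw [e2] at e1
    exact le_of_mul_le_mul_left e1 (by positivity)
  have hsplit : ∑ π, c π ^ 2 ≤ ∑ π ∈ G, c π ^ 2 + θ * μ * f := by
    rw [← Finset.sum_filter_add_sum_filter_not univ (fun π : Equiv.Perm (Fin n) => θ * μ < c π ^ 2)]
    refine add_le_add (le_refl _) ?_
    calc ∑ π ∈ Finset.univ.filter (fun π : Equiv.Perm (Fin n) => ¬ θ * μ < c π ^ 2), c π ^ 2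
        ≤ ∑ _π ∈ Finset.univ.filter (fun π : Equiv.Perm (Fin n) => ¬ θ * μ < c π ^ 2), θ * μ := by
          refine Finset.sum_le_sum fun π hπ => ?_
          exact not_lt.mp (Finset.mem_filter.mp hπ).2
      _ ≤ ∑ _π : Equiv.Perm (Fin n), θ * μ := by
          refine Finset.sum_le_sum_of_subset_of_nonneg (Finset.subset_univ _) fun _ _ _ => ?_
          positivity
      _ = θ * μ * f := by
          rw [Finset.sum_const, Finset.card_univ, Fintype.card_perm, Fintype.card_fin, nsmul_eq_mul]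
          ring
  have hlow : (1 - θ) * μ * f ≤ ∑ π ∈ G, c π ^ 2 := by
    have e : (1 - θ) * μ * f = μ * f - θ * μ * f := by ring
    rw [e]
    linarith
  have hcs : (∑ π ∈ G, c π ^ 2) ^ 2 ≤ (G.card : ℝ) * ∑ π ∈ G, c π ^ 4 := by
    have := Finset.sum_mul_sq_le_sq_mul_sq G (fun _ => (1 : ℝ)) (fun π => c π ^ 2)
    simp only [one_mul, one_pow, Finset.sum_const, nsmul_eq_mul, mul_one] at this
    refine this.trans (le_of_eq ?_)
    congr 1
    refine Finset.sum_congr rfl fun π _ => ?_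
    rw [← pow_mul]
  have hle : ∑ π ∈ G, c π ^ 4 ≤ ∑ π, c π ^ 4 := by
    refine Finset.sum_le_sum_of_subset_of_nonneg (Finset.subset_univ _) fun π _ _ => ?_
    positivity
  have hGn : (0 : ℝ) ≤ (G.card : ℝ) := Nat.cast_nonneg _
  have h1θ : 0 ≤ 1 - θ := by linarith
  have hmain : ((1 - θ) * μ * f) ^ 2 ≤ (G.card : ℝ) * (N * (256 * (21 / 8) ^ n) * f) := by
    calc ((1 - θ) * μ * f) ^ 2 ≤ (∑ π ∈ G, c π ^ 2) ^ 2 :=
          pow_le_pow_left₀ (by positivity) hlow 2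
      _ ≤ (G.card : ℝ) * ∑ π ∈ G, c π ^ 4 := hcs
      _ ≤ (G.card : ℝ) * (N * (256 * (21 / 8) ^ n) * f) :=
          mul_le_mul_of_nonneg_left (hle.trans h4) hGn
  have hD : 0 < N * (256 * (21 / 8 : ℝ) ^ n) := by positivity
  have hid : (1 - θ) ^ 2 * (6 / 7 : ℝ) ^ n / (6561 * N) =
      ((1 - θ) * μ) ^ 2 / (N * (256 * (21 / 8) ^ n)) := by
    have e1 : ((3 / 2 : ℝ) ^ n) ^ 2 = (21 / 8) ^ n * (6 / 7) ^ n := by
      rw [← pow_mul, mul_comm, pow_mul, ← mul_pow]; norm_num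
    exact num_id (1 - θ) μ ((3 / 2) ^ n) ((21 / 8) ^ n) ((6 / 7) ^ n) N hμ e1 (by positivity) hNpos
  rw [hid]
  exact alg _ _ _ _ hfpos hD hmain

lemma card_transfer (n : ℕ) (σ ρ : Equiv.Perm (Fin n)) (x : ℝ) :
    ((cyc n).filter (fun τ => x < (cc (ρ * σ * ρ⁻¹) τ : ℝ) ^ 2)).card =
      ((cyc n).filter (fun τ => x < (cc σ τ : ℝ) ^ 2)).card := by
  symm
  refine Finset.card_bij (fun τ _ => ρ * τ * ρ⁻¹) ?_ ?_ ?_
  · intro τ hτ
    rw [Finset.mem_filter, mem_cyc] at hτ ⊢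
    refine ⟨?_, ?_⟩
    · rw [Equiv.Perm.cycleType_conj]; exact hτ.1
    · rw [cc_conj]; exact hτ.2
  · intro a _ b _ hab
    exact mul_left_cancel (mul_right_cancel hab)
  · intro τ hτ
    rw [Finset.mem_filter, mem_cyc] at hτ
    refine ⟨ρ⁻¹ * τ * ρ, ?_, by group⟩
    have e : ρ * (ρ⁻¹ * τ * ρ) * ρ⁻¹ = τ := by group
    rw [Finset.mem_filter, mem_cyc]
    refine ⟨?_, ?_⟩
    · rw [← hτ.1]
      nth_rw 2 [← e]
      rw [Equiv.Perm.cycleType_conj]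
    · rw [← cc_conj σ _ ρ, e]
      exact hτ.2

/-- The moment bound for the proportion of cycles. -/
theorem moment_bound (n : ℕ) (hn : 3 ≤ n) (σ : Equiv.Perm (Fin n)) (hσ : σ.cycleType = {n})
    (θ : ℝ) (hθ0 : 0 ≤ θ) (hθ1 : θ ≤ 1) :
    (1 - θ) ^ 2 * (6 / 7 : ℝ) ^ n / (6561 * ((n : ℝ) + 1) ^ 162) * ((cyc n).card : ℝ) ≤
      (((cyc n).filter (fun τ => θ * ((16 / 81) * (3 / 2) ^ n) < (cc σ τ : ℝ) ^ 2)).card : ℝ) := by
  have hn2 : 2 ≤ n := by omega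
  obtain ⟨g, hg⟩ : ∃ g : Equiv.Perm (Fin n), g * finRotate n * g⁻¹ = σ := by
    apply isConj_iff.mp
    rw [Equiv.Perm.isConj_iff_cycleType_eq, hσ, (mem_cyc _).mp (rot_mem hn2)]
  rw [← hg, card_transfer]
  have h1 := prop_enum n hn θ hθ0 hθ1
  have h2 := count_enum hn2 (fun τ => θ * ((16 / 81) * (3 / 2) ^ n) < (cc (finRotate n) τ : ℝ) ^ 2)
  have h3 := count_enum hn2 (fun _ : Equiv.Perm (Fin n) => True)
  simp only [Finset.filter_true] at h3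
  rw [Finset.card_univ, Fintype.card_perm, Fintype.card_fin] at h3
  rw [h2, h3] at h1
  push_cast at h1
  have hF : (0 : ℝ) < ((fib n (finRotate n)).card : ℝ) := by exact_mod_cast fib_pos
  rw [← mul_assoc] at h1
  exact le_of_mul_le_mul_right h1 hF

end Run7.h765.Mom
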